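import Pool.Agent.H157.Cusp.Levels

/-! Arbitrarily small arcs around a cusp whose ends have the same level. -/

set_option autoImplicit false
open Complex Set Topology Metric Filter

namespace Pool.Agent.H157.Cusp

open Pool.Agent.Y450.Stab Pool.Agent.Y450.Lens
open Pool.Agent.Y535.PEG
open Pool.Agent.H763R2 Pool.Agent.H763R2.An Pool.Agent.W675.Peg Pool.Agent.TH569.Peg
open Pool.Agent.H763R2.Dm (NoSq floor_const)

variable {c : ℝ → ℂ}

theorem Cusp.cone {s0 : ℝ} (h : Cusp c s0) : ∃ ρ > 0, ∀ s, s ≠ s0 → |s - s0| < ρ → Cone c s := by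
  obtain ⟨ρ, hρ, w, H1, H2⟩ := h
  refine ⟨ρ, hρ, fun s hs hsρ => ?_⟩
  rw [abs_lt] at hsρ
  rcases lt_or_gt_of_ne hs with h | h
  · refine ⟨min (s - (s0 - ρ)) (s0 - s), lt_min (by linarith) (by linarith), -w,
      fun x y hx hy hxy => ?_⟩
    rw [lt_min_iff, abs_lt, abs_lt] at hx hy
    have := H2 x y (by linarith [hx.1.1]) hxy (by linarith [hy.2.2])
    rw [show -w * (c y - c x) = w * (c x - c y) by ring]
    linarith [abs_nonneg (w * (c x - c y)).im]
  · refine ⟨min (s - s0) (s0 + ρ - s), lt_min (by linarith) (by linarith), w,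
      fun x y hx hy hxy => ?_⟩
    rw [lt_min_iff, abs_lt, abs_lt] at hx hy
    have := H1 x y (by linarith [hx.1.1]) hxy (by linarith [hy.2.2])
    linarith [abs_nonneg (w * (c y - c x)).im]

theorem lip_clamp {f : ℝ → ℝ} (hf : Lip (1 / 5) f) (R : ℝ) : Lip (1 / 5) (fun x => f (min x R)) := by
  intro x y
  refine (hf _ _).trans ?_
  have : |min x R - min y R| ≤ |x - y| := by
    have := abs_min_sub_min_le_max x R y R
    rw [sub_self, abs_zero, max_eq_left (abs_nonneg _)] at this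
    exact this
  linarith

theorem Cusp.pair (L : Loop c) (J : Inj c) (nosq : NoSq (range c)) {z0 : ℂ} (hz : 0 < mgc c z0)
    {s0 : ℝ} (h : Cusp c s0) {ε : ℝ} (hε : 0 < ε) : ∃ p q, s0 - ε < p ∧ p < s0 ∧ s0 < q ∧
      q < s0 + ε ∧ AR c p q ∧ Pool.Agent.H35.PegCol.StairLR c p q := by
  obtain ⟨ρc, hρc, hcone⟩ := h.cone
  obtain ⟨ρ, hρ, w, H1, H2⟩ := h
  obtain ⟨δ, hδ, d1, d2, d3, d4⟩ : ∃ δ > 0, δ < ρ ∧ δ < ε ∧ δ ≤ 1 / 8 ∧ δ < ρc := by
    refine ⟨min (min (ρ / 2) (ε / 2)) (min (1 / 8) (ρc / 2)), by positivity, ?_, ?_, ?_, ?_⟩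
    · exact lt_of_le_of_lt ((min_le_left _ _).trans (min_le_left _ _)) (by linarith)
    · exact lt_of_le_of_lt ((min_le_left _ _).trans (min_le_right _ _)) (by linarith)
    · exact (min_le_right _ _).trans (min_le_left _ _)
    · exact lt_of_le_of_lt ((min_le_right _ _).trans (min_le_right _ _)) (by linarith)
  have hw : w ≠ 0 := by
    rintro rfl
    have := H1 s0 (s0 + δ) le_rfl (by linarith) (by linarith)
    simp at this
  obtain ⟨o, ho⟩ : ∃ o, o = c s0 := ⟨_, rfl⟩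
  obtain ⟨X, hX⟩ : ∃ X : ℝ → ℝ, ∀ s, X s = (w * (c s - o)).re := ⟨fun s => _, fun s => rfl⟩
  obtain ⟨Y, hY⟩ : ∃ Y : ℝ → ℝ, ∀ s, Y s = (w * (c s - o)).im := ⟨fun s => _, fun s => rfl⟩
  have cc := L.cont
  have cX : Continuous X := by
    rw [show X = fun s => (w * (c s - o)).re from funext hX]; fun_prop
  have cY : Continuous Y := by
    rw [show Y = fun s => (w * (c s - o)).im from funext hY]; fun_prop
  have X0 : X s0 = 0 := by rw [hX, ho, sub_self, mul_zero, zero_re]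
  have Y0 : Y s0 = 0 := by rw [hY, ho, sub_self, mul_zero, zero_im]
  have a1 : ∀ x y, s0 ≤ x → x < y → y ≤ s0 + δ → 5 * |Y y - Y x| < X y - X x := by
    intro x y h1 h2 h3
    have := H1 x y h1 h2 (by linarith)
    rw [hX, hX, hY, hY, ← sub_re, ← sub_im,
      show w * (c y - o) - w * (c x - o) = w * (c y - c x) by ring]
    exact this
  have a2 : ∀ x y, s0 - δ ≤ x → x < y → y ≤ s0 → 5 * |Y x - Y y| < X x - X y := by
    intro x y h1 h2 h3
    have := H2 x y (by linarith) h2 h3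
    rw [hX, hX, hY, hY, ← sub_re, ← sub_im,
      show w * (c x - o) - w * (c y - o) = w * (c x - c y) by ring]
    exact this
  obtain ⟨G, lG, G1, G2, -⟩ := branch (X := X) (Y := Y) (α := s0) (β := s0 + δ) (by linarith) cX a1
  obtain ⟨F, lF, F1, F2, -⟩ := branch (X := fun t => X (-t)) (Y := fun t => Y (-t)) (α := -s0)
    (β := -s0 + δ) (by linarith) (by fun_prop) (fun x y h1 h2 h3 => by
      exact a2 (-y) (-x) (by linarith) (by linarith) (by linarith))
  have F1' : ∀ s, s0 - δ ≤ s → s ≤ s0 → F (X s) = Y s := by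
    intro s h1 h2
    have := F1 (-s) (by linarith) (by linarith)
    simp only [neg_neg] at this
    exact this
  simp only [neg_neg] at F2
  rw [X0, Y0] at G2 F2
  obtain ⟨ρ1, hρ1, hnear⟩ := near_par L J hδ
  have W : 0 < ‖w‖ := norm_pos_iff.2 hw
  have m1 : ∀ x y, s0 - δ ≤ x → x < y → y ≤ s0 → X y < X x := fun x y h1 h2 h3 => by
    linarith [a2 x y h1 h2 h3, abs_nonneg (Y x - Y y)]
  have m2 : ∀ x y, s0 ≤ x → x < y → y ≤ s0 + δ → X x < X y := fun x y h1 h2 h3 => by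
    linarith [a1 x y h1 h2 h3, abs_nonneg (Y y - Y x)]
  have XL := m1 (s0 - δ) s0 le_rfl (by linarith) le_rfl
  have XR := m2 s0 (s0 + δ) le_rfl (by linarith) le_rfl
  rw [X0] at XL XR
  obtain ⟨R, R0, R1, R2, R3⟩ : ∃ R > 0, R ≤ X (s0 - δ) ∧ R ≤ X (s0 + δ) ∧ 2 * R ≤ ρ1 * ‖w‖ := by
    refine ⟨min (min (X (s0 - δ)) (X (s0 + δ))) (ρ1 * ‖w‖ / 2), by positivity,
      (min_le_left _ _).trans (min_le_left _ _), (min_le_left _ _).trans (min_le_right _ _), ?_⟩
    have := min_le_right (min (X (s0 - δ)) (X (s0 + δ))) (ρ1 * ‖w‖ / 2)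
    linarith
  have pt : ∀ s, o + (((X s : ℝ) : ℂ) + ((Y s : ℝ) : ℂ) * I) / w = c s := by
    intro s
    rw [hX, hY, re_add_im]
    field_simp
    ring
  have hin0 : ∀ ζ : ℂ, |ζ.re| < R → |ζ.im| < R → o + ζ / w ∈ range c →
      ∃ s, s0 - δ < s ∧ s < s0 + δ ∧ ζ.re = X s ∧ ζ.im = Y s := by
    rintro ζ h1 h2 ⟨x, hx⟩
    have n1 : ‖c x - c s0‖ < ρ1 := by
      rw [hx, ← ho, add_sub_cancel_left, norm_div, div_lt_iff₀ W]
      have := Complex.norm_le_abs_re_add_abs_im ζ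
      linarith
    obtain ⟨n, e, he, e1⟩ := hnear x s0 n1
    rw [abs_lt] at he
    have e2 : c x = c (s0 + e) := by rw [e1, L.per_int]
    have e3 : ζ = w * (c (s0 + e) - o) := by
      rw [← e2, hx]
      field_simp
      ring
    refine ⟨s0 + e, by linarith, by linarith, ?_, ?_⟩
    · rw [hX, e3]
    · rw [hY, e3]
  have exF : ∀ x, 0 ≤ x → x ≤ R → ∃ s, s0 - δ ≤ s ∧ s ≤ s0 ∧ X s = x := by
    intro x h1 h2
    obtain ⟨s, hs, e⟩ := intermediate_value_Icc' (by linarith : s0 - δ ≤ s0) cX.continuousOn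
      (show x ∈ Icc (X s0) (X (s0 - δ)) from ⟨by rw [X0]; exact h1, by linarith⟩)
    exact ⟨s, hs.1, hs.2, e⟩
  have exG : ∀ x, 0 ≤ x → x ≤ R → ∃ s, s0 ≤ s ∧ s ≤ s0 + δ ∧ X s = x := by
    intro x h1 h2
    obtain ⟨s, hs, e⟩ := intermediate_value_Icc (by linarith : s0 ≤ s0 + δ) cX.continuousOn
      (show x ∈ Icc (X s0) (X (s0 + δ)) from ⟨by rw [X0]; exact h1, by linarith⟩)
    exact ⟨s, hs.1, hs.2, e⟩
  have onF : ∀ x, 0 ≤ x → x ≤ R → o + ((x : ℂ) + (F x : ℂ) * I) / w ∈ range c := by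
    intro x h1 h2
    obtain ⟨s, b1, b2, e⟩ := exF x h1 h2
    rw [← e, F1' s b1 b2, pt]
    exact mem_range_self s
  have onG : ∀ x, 0 ≤ x → x ≤ R → o + ((x : ℂ) + (G x : ℂ) * I) / w ∈ range c := by
    intro x h1 h2
    obtain ⟨s, b1, b2, e⟩ := exG x h1 h2
    rw [← e, G1 s b1 b2, pt]
    exact mem_range_self s
  have ne : ∀ x, 0 < x → x ≤ R → F x - G x ≠ 0 := by
    intro x h1 h2 h3
    obtain ⟨s, b1, b2, e⟩ := exF x h1.le h2
    obtain ⟨t, b3, b4, e'⟩ := exG x h1.le h2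
    have hs : s ≠ s0 := fun h => by rw [h, X0] at e; linarith
    have hs' : s < s0 := lt_of_le_of_ne b2 hs
    refine J s t (by linarith) (by linarith) ?_
    rw [← pt s, ← pt t, ← F1' s b1 b2, ← G1 t b3 b4, e, e', show F x = G x by linarith]
  have hpt : ∃ p, s0 - δ < p ∧ p < s0 ∧ X p = R / 8 := by
    obtain ⟨p, b1, b2, e⟩ := exF (R / 8) (by linarith) (by linarith)
    refine ⟨p, lt_of_le_of_ne b1 fun h => ?_, lt_of_le_of_ne b2 fun h => ?_, e⟩
    · rw [← h] at e; linarith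
    · rw [h, X0] at e; linarith
  obtain ⟨p, p1, p2, p3⟩ := hpt
  obtain ⟨s2, s3, s4, s5⟩ : ∃ s2, s0 < s2 ∧ s2 ≤ s0 + δ ∧ X s2 = R / 4 := by
    obtain ⟨t, b1, b2, e⟩ := exG (R / 4) (by linarith) (by linarith)
    refine ⟨t, lt_of_le_of_ne b1 fun h => ?_, b2, e⟩
    rw [← h, X0] at e; linarith
  have C1 : ∀ s, p ≤ s → s < s0 → Cone c s := fun s h1 h2 => hcone s h2.ne (by
    rw [abs_lt]; constructor <;> linarith)
  have C2 : ∀ s, s0 < s → s < s2 → Cone c s := fun s h1 h2 => hcone s h1.ne' (by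
    rw [abs_lt]; constructor <;> linarith)
  have mm1 : ∀ x y, p ≤ x → x < y → y ≤ s0 → X y < X x := fun x y h1 h2 h3 =>
    m1 x y (by linarith) h2 h3
  have mm2 : ∀ x y, s0 ≤ x → x < y → y ≤ s2 → X x < X y := fun x y h1 h2 h3 =>
    m2 x y h1 h2 (by linarith)
  have X1 : ∀ x, p ≤ x → x ≤ s0 → X x ≤ R := fun x h1 h2 => by
    rcases h1.eq_or_lt with h | h
    · rw [← h, p3]; linarith
    · have := mm1 p x le_rfl h h2
      linarith
  have X2 : ∀ x, s0 ≤ x → x ≤ s2 → X x ≤ R := fun x h1 h2 => by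
    rcases h2.eq_or_lt with h | h
    · rw [h, s5]; linarith
    · have := mm2 x s2 h1 h le_rfl
      linarith
  have y1 : ∀ x, p ≤ x → x ≤ s0 → Y x = F (min (X x) R) := fun x h1 h2 => by
    rw [min_eq_left (X1 x h1 h2), F1' x (by linarith) h2]
  have y2 : ∀ x, s0 ≤ x → x ≤ s2 → Y x = G (min (X x) R) := fun x h1 h2 => by
    rw [min_eq_left (X2 x h1 h2), G1 x h1 (by linarith)]
  have F0 : ∀ x ≤ 0, F (min x R) = 0 := fun x hx => by
    rw [min_eq_left (by linarith), F2 x hx]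
  have G0 : ∀ x ≤ 0, G (min x R) = 0 := fun x hx => by
    rw [min_eq_left (by linarith), G2 x hx]
  have hin : ∀ ζ : ℂ, |ζ.re| < R → |ζ.im| < R → o + ζ / w ∈ range c →
      0 ≤ ζ.re ∧ (ζ.im = F (min ζ.re R) ∨ ζ.im = G (min ζ.re R)) := by
    intro ζ h1 h2 h3
    obtain ⟨s, b1, b2, b3, b4⟩ := hin0 ζ h1 h2 h3
    rw [min_eq_left (abs_lt.1 h1).2.le, b3, b4]
    rcases le_total s s0 with h | h
    · refine ⟨?_, Or.inl (F1' s b1.le h).symm⟩
      rcases h.eq_or_lt with h | h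
      · rw [h, X0]
      · have := m1 s s0 b1.le h le_rfl
        linarith
    · refine ⟨?_, Or.inr (G1 s h b2.le).symm⟩
      rcases h.eq_or_lt with h | h
      · rw [← h, X0]
      · have := m2 s0 s le_rfl h b2.le
        linarith
  have onF' : ∀ x, 0 ≤ x → x ≤ R → o + ((x : ℂ) + (F (min x R) : ℂ) * I) / w ∈ range c :=
    fun x h1 h2 => by rw [min_eq_left h2]; exact onF x h1 h2
  have onG' : ∀ x, 0 ≤ x → x ≤ R → o + ((x : ℂ) + (G (min x R) : ℂ) * I) / w ∈ range c :=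
    fun x h1 h2 => by rw [min_eq_left h2]; exact onG x h1 h2
  have cF := lF.cont
  have cG := lG.cont
  have sg : ∀ x y, 0 < x → x ≤ R → 0 < y → y ≤ R → 0 < (F x - G x) * (F y - G y) :=
    fun x y h1 h2 h3 h4 => sign_pre (V := Ioc 0 R) isPreconnected_Ioc (f := fun x => F x - G x)
      (Continuous.continuousOn (by fun_prop)) (fun z hz => ne z hz.1 hz.2) ⟨h1, h2⟩ ⟨h3, h4⟩
  have mR : ∀ x, 0 < x → 0 < min x R ∧ min x R ≤ R := fun x hx =>
    ⟨lt_min hx R0, min_le_right _ _⟩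
  rcases lt_or_gt_of_ne (ne R R0 le_rfl) with hlt | hgt
  · have hTB : ∀ x, 0 < x → F (min x R) < G (min x R) := by
      intro x hx
      have := sg R (min x R) R0 le_rfl (mR x hx).1 (mR x hx).2
      by_contra hcon
      push Not at hcon
      have := mul_nonpos_of_nonpos_of_nonneg hlt.le (sub_nonneg.2 hcon)
      linarith
    have C := mkCg (lip_clamp lG R) (lip_clamp lF R) G0 F0 hTB hw nosq onG' onF'
    obtain ⟨q, q0, q2, A, hA⟩ := levII L J hz hw C hX hY (fun ζ h1 h2 h3 => by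
      obtain ⟨b1, b2⟩ := hin ζ h1 h2 h3
      exact ⟨b1, b2.symm⟩) p2 s3 X0 (by rw [s5, p3]; ring) (by rw [s5]) mm1 mm2 y1 y2 C1 C2
      (by linarith)
    exact ⟨p, q, by linarith, p2, q0, by linarith, A, hA⟩
  · have hTB : ∀ x, 0 < x → G (min x R) < F (min x R) := by
      intro x hx
      have := sg R (min x R) R0 le_rfl (mR x hx).1 (mR x hx).2
      by_contra hcon
      push Not at hcon
      have := mul_nonpos_of_nonneg_of_nonpos hgt.le (sub_nonpos.2 hcon)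
      linarith
    have C := mkCg (lip_clamp lF R) (lip_clamp lG R) F0 G0 hTB hw nosq onF' onG'
    obtain ⟨q, q0, q2, A, hA⟩ := levI L J hz hw C hX hY hin p2 s3 X0 (by rw [s5, p3]; ring)
      (by rw [s5]) mm1 mm2 y1 y2 C1 C2 (by linarith)
    exact ⟨p, q, by linarith, p2, q0, by linarith, A, hA⟩

end Pool.Agent.H157.Cusp
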