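import Pool.Agent.H157.Cusp.Case

/-! Branches of a curve as graphs; the regions near a cusp. -/

set_option autoImplicit false
open Set Filter Topology

namespace Pool.Agent.H157.Cusp

open Pool.Agent.Y450.Stab Pool.Agent.Y450.Lens

/-- an arc with flat chords is the graph of a Lipschitz function -/
theorem branch {X Y : ℝ → ℝ} {α β : ℝ} (h : α ≤ β) (cX : Continuous X)
    (H : ∀ x y, α ≤ x → x < y → y ≤ β → 5 * |Y y - Y x| < X y - X x) :
    ∃ G : ℝ → ℝ, Lip (1 / 5) G ∧ (∀ s, α ≤ s → s ≤ β → G (X s) = Y s) ∧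
      (∀ x, x ≤ X α → G x = Y α) ∧ (∀ x, X β ≤ x → G x = Y β) := by
  have mono : ∀ x y, α ≤ x → x < y → y ≤ β → X x < X y := fun x y h1 h2 h3 => by
    linarith [H x y h1 h2 h3, abs_nonneg (Y y - Y x)]
  have hαβ : X α ≤ X β := by
    rcases h.eq_or_lt with h | h
    · rw [h]
    · exact (mono α β le_rfl h le_rfl).le
  have uniq : ∀ x y, α ≤ x → x ≤ β → α ≤ y → y ≤ β → X x = X y → x = y := by
    intro x y h1 h2 h3 h4 e
    rcases lt_trichotomy x y with h | h | h
    · exact absurd e (mono x y h1 h h4).ne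
    · exact h
    · exact absurd e (mono y x h3 h h2).ne'
  have ex : ∀ x, ∃ s, α ≤ s ∧ s ≤ β ∧ X s = max (X α) (min x (X β)) := by
    intro x
    obtain ⟨s, hs, e⟩ := intermediate_value_Icc h cX.continuousOn
      (show max (X α) (min x (X β)) ∈ Icc (X α) (X β) from
        ⟨le_max_left _ _, max_le hαβ (min_le_right _ _)⟩)
    exact ⟨s, hs.1, hs.2, e⟩
  choose sel h1 h2 h3 using ex
  have cl : ∀ x y, x ≤ y → max (X α) (min y (X β)) - max (X α) (min x (X β)) ≤ y - x := by
    intro x y hxy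
    rcases le_total x (X β) with a1 | a1 <;> rcases le_total y (X β) with a2 | a2 <;>
      simp only [min_eq_left, min_eq_right, a1, a2] <;>
      rcases le_total (X α) x with b1 | b1 <;> rcases le_total (X α) y with b2 | b2 <;>
      simp only [max_eq_left, max_eq_right, b1, b2, hαβ] <;> linarith
  have key : ∀ x y, x ≤ y → |Y (sel y) - Y (sel x)| ≤ 1 / 5 * (y - x) := by
    intro x y hxy
    have c1 := cl x y hxy
    rw [← h3 x, ← h3 y] at c1
    have hle : X (sel x) ≤ X (sel y) := by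
      rw [h3, h3]
      exact max_le_max le_rfl (min_le_min hxy le_rfl)
    rcases lt_trichotomy (sel x) (sel y) with h | h | h
    · have := H _ _ (h1 x) h (h2 y)
      linarith
    · rw [h, sub_self, abs_zero]; linarith
    · have := mono _ _ (h1 y) h (h2 x)
      linarith
  refine ⟨fun x => Y (sel x), ?_, ?_, ?_, ?_⟩
  · intro x y
    simp only
    rcases le_total x y with h | h
    · rw [abs_sub_comm, abs_sub_comm x y, abs_of_nonneg (by linarith : 0 ≤ y - x)]
      exact key x y h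
    · rw [abs_of_nonneg (by linarith : 0 ≤ x - y)]
      exact key y x h
  · intro s a1 a2
    simp only
    have b1 : X α ≤ X s := by
      rcases a1.eq_or_lt with h | h
      · rw [h]
      · exact (mono _ _ le_rfl h a2).le
    have b2 : X s ≤ X β := by
      rcases a2.eq_or_lt with h | h
      · rw [h]
      · exact (mono _ _ a1 h le_rfl).le
    rw [uniq (sel (X s)) s (h1 _) (h2 _) a1 a2 (by
      rw [h3, min_eq_left b2, max_eq_right b1])]
  · intro x hx
    simp only
    rw [uniq (sel x) α (h1 _) (h2 _) le_rfl h (by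
      rw [h3, max_eq_left ((min_le_left _ _).trans hx)])]
  · intro x hx
    simp only
    rw [uniq (sel x) β (h1 _) (h2 _) h le_rfl (by
      rw [h3, min_eq_right hx, max_eq_right hαβ])]

/-- the region over the graph in a box -/
def RU (f : ℝ → ℝ) (R : ℝ) : Set ℂ := {ζ | |ζ.re| < R ∧ f ζ.re < ζ.im ∧ ζ.im < R}

/-- the region below the graph in a box -/
def RL (f : ℝ → ℝ) (R : ℝ) : Set ℂ := {ζ | |ζ.re| < R ∧ ζ.im < f ζ.re ∧ -R < ζ.im}

/-- the region between the graphs in a box -/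
def RM (T B : ℝ → ℝ) (R : ℝ) : Set ℂ := {ζ | 0 < ζ.re ∧ ζ.re < R ∧ B ζ.re < ζ.im ∧ ζ.im < T ζ.re}

theorem strip_pre {f k : ℝ → ℝ} (hf : Continuous f) (hk : Continuous k) {u v : ℝ}
    (h : ∀ x, u < x → x < v → f x < k x) :
    IsPreconnected {ζ : ℂ | u < ζ.re ∧ ζ.re < v ∧ f ζ.re < ζ.im ∧ ζ.im < k ζ.re} := by
  have e : {ζ : ℂ | u < ζ.re ∧ ζ.re < v ∧ f ζ.re < ζ.im ∧ ζ.im < k ζ.re} =
      (fun p : ℝ × ℝ => ((p.1 : ℂ) + (f p.1 + p.2 * (k p.1 - f p.1) : ℝ) * Complex.I)) ''
        (Ioo u v ×ˢ Ioo 0 1) := by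
    apply Subset.antisymm
    · rintro ζ ⟨h1, h2, h3, h4⟩
      have h5 := h _ h1 h2
      have h6 : 0 < k ζ.re - f ζ.re := by linarith
      refine ⟨(ζ.re, (ζ.im - f ζ.re) / (k ζ.re - f ζ.re)), ⟨⟨h1, h2⟩, ⟨?_, ?_⟩⟩, ?_⟩
      · exact div_pos (by linarith) h6
      · rw [div_lt_one h6]; linarith
      · simp only
        rw [div_mul_cancel₀ _ h6.ne']
        apply Complex.ext <;> simp
    · rintro _ ⟨⟨x, t⟩, ⟨⟨h1, h2⟩, ⟨h3, h4⟩⟩, rfl⟩
      simp only at h1 h2 h3 h4
      have h5 := h x h1 h2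
      have h6 : 0 < k x - f x := by linarith
      have h7 := mul_pos h3 h6
      have h8 := mul_lt_mul_of_pos_right h4 h6
      have er : ((x : ℂ) + ((f x + t * (k x - f x) : ℝ) : ℂ) * Complex.I).re = x := by simp
      have ei : ((x : ℂ) + ((f x + t * (k x - f x) : ℝ) : ℂ) * Complex.I).im =
        f x + t * (k x - f x) := by simp
      refine ⟨?_, ?_, ?_, ?_⟩ <;> simp only [er, ei] <;> linarith
  rw [e]
  refine IsPreconnected.image ?_ _ ?_
  · exact (isPreconnected_Ioo.prod isPreconnected_Ioo)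
  · exact Continuous.continuousOn (by fun_prop)

end Pool.Agent.H157.Cusp
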