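import Pool.Agent.H157.Cusp.Chord

/-! The corner of the staircase around a cusp. -/

set_option autoImplicit false
open Set Filter Topology

namespace Pool.Agent.H157.Cusp

open Pool.Agent.Y450.Stab Pool.Agent.Y450.Lens

variable {T B : ℝ → ℝ} {r : ℝ}

/-- the point lies between the graphs -/
def Md (T B : ℝ → ℝ) (u v : ℝ) : Prop := B u < v ∧ v < T u

variable {X Y : ℝ → ℝ} {s0 s2 p : ℝ}

/-- arrival on the upper branch, departure on the lower branch -/
theorem Cg.caseI (C : Cg T B r) (cX : Continuous X) (cY : Continuous Y) (hp : p < s0) (h02 : s0 < s2)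
    (X0 : X s0 = 0) (Xp : 0 < X p) (X2 : X s2 = 2 * X p) (hr : X s2 ≤ r)
    (m1 : ∀ x y, p ≤ x → x < y → y ≤ s0 → X y < X x)
    (m2 : ∀ x y, s0 ≤ x → x < y → y ≤ s2 → X x < X y)
    (hU : ∀ x, p ≤ x → x ≤ s0 → Y x = T (X x)) (hL : ∀ x, s0 ≤ x → x ≤ s2 → Y x = B (X x)) :
    ∃ q, s0 < q ∧ q < s2 ∧
      (∀ y, p < y → y ≤ q → Md T B (X p - (Y y - Y p)) (Y p + (X y - X p)) ∨
        Y y + (X y - X p) < B (X y - (Y y - Y p))) ∧
      (∀ x, p ≤ x → x < q → Md T B (X q - (Y q - Y x)) (Y q + (X q - X x)) ∨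
        T (X x - (Y q - Y x)) < Y x + (X q - X x)) ∧
      Md T B (X p - (Y q - Y p)) (Y p + (X q - X p)) ∧
      Md T B (X q - (Y q - Y p)) (Y q + (X q - X p)) := by
  have cT := C.hT.cont
  have cB := C.hB.cont
  have yp : Y p = T (X p) := hU p le_rfl hp.le
  have y0 : Y s0 = B (X s0) := hL s0 le_rfl h02.le
  have ys : Y s2 = B (X s2) := hL s2 h02.le le_rfl
  obtain ⟨g1, g2⟩ := C.c1s Xp
  have ce : Continuous fun y => Y y + (X y - X p) - B (X y - (Y y - Y p)) := by fun_prop
  obtain ⟨z, hz, ez⟩ := intermediate_value_Icc h02.le ce.continuousOn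
    (show (0:ℝ) ∈ Icc _ _ from ⟨by
      rw [y0, yp, X0]; linarith, by
      rw [ys, yp, X2]; linarith⟩)
  simp only at ez
  have hz0 : s0 < z := by
    refine lt_of_le_of_ne hz.1 fun h => ?_
    rw [← h, y0, yp, X0] at ez
    linarith
  have hz2 : z < s2 := by
    refine lt_of_le_of_ne hz.2 fun h => ?_
    rw [h, ys, yp, X2] at ez
    linarith
  have yz : Y z = B (X z) := hL z hz.1 hz.2
  have Xz2 := m2 z s2 hz.1 hz2 le_rfl
  obtain ⟨k1, k2, k3⟩ := C.c1z (b := X z) Xp (by linarith) (by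
    rw [yz, yp] at ez
    linarith)
  rw [← yz, ← yp] at k1 k2 k3
  have e1 : ∀ᶠ q in 𝓝 z, B (X p - (Y q - Y p)) < Y p + (X q - X p) :=
    ContinuousAt.eventually_lt (by fun_prop) (by fun_prop) k1
  have e2 : ∀ᶠ q in 𝓝 z, Y p + (X q - X p) < T (X p - (Y q - Y p)) :=
    ContinuousAt.eventually_lt (by fun_prop) (by fun_prop) k2
  have e3 : ∀ᶠ q in 𝓝 z, Y q + (X q - X p) < T (X q - (Y q - Y p)) :=
    ContinuousAt.eventually_lt (by fun_prop) (by fun_prop) k3
  have e4 : ∀ᶠ q in 𝓝 z, q < s2 := eventually_lt_nhds hz2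
  have e5 := (e1.and (e2.and (e3.and e4))).filter_mono (nhdsWithin_le_nhds (s := Ioi z))
  obtain ⟨q, ⟨q1, q2, q3, q4⟩, q5⟩ := (e5.and self_mem_nhdsWithin).exists
  have q5 : z < q := q5
  have q0 : s0 < q := hz0.trans q5
  have yq : Y q = B (X q) := hL q q0.le q4.le
  have q6 : B (X q - (Y q - Y p)) < Y q + (X q - X p) := by
    have := C.c1m (a := X p) (m2 z q hz.1 q5 q4.le)
    rw [← yz, ← yq, ← yp] at this
    linarith
  have Xq2 := m2 q s2 q0.le q4 le_rfl
  have Xq0 := m2 s0 q le_rfl q0 q4.le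
  rw [X0] at Xq0
  refine ⟨q, q0, q4, ?_, ?_, ⟨q1, q2⟩, ⟨q6, q3⟩⟩
  · intro y hy hyq
    rcases le_total y s0 with h | h
    · have yy : Y y = T (X y) := hU y hy.le h
      have := m1 p y le_rfl hy h
      have hb : 0 ≤ X y := by
        rcases h.eq_or_lt with h | h
        · rw [h, X0]
        · have := m1 y s0 hy.le h le_rfl
          linarith
      rw [yy, yp]
      exact C.c1a hb this (by linarith)
    · have yy : Y y = B (X y) := hL y h (hyq.trans q4.le)
      have hb : X y ≤ X q := by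
        rcases hyq.eq_or_lt with h' | h'
        · rw [h']
        · exact (m2 y q h h' q4.le).le
      rw [yy, yp]
      refine C.c1b Xp hb ?_
      rw [← yq, ← yp]; exact q2
  · intro x hx hxq
    rcases le_total x s0 with h | h
    · have yx : Y x = T (X x) := hU x hx h
      have hb : X x ≤ X p := by
        rcases hx.eq_or_lt with h' | h'
        · rw [h']
        · exact (m1 p x le_rfl h' h).le
      rw [yx, yq]
      have := C.symm.c1b (a := X q) (b := X x) (b1 := X p) Xq0 hb (by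
        rw [show X q - (-T (X p) - -B (X q)) = X q - (Y q - Y p) by rw [yq, yp]; ring, ← yq]
        linarith)
      rcases this with ⟨h1, h2⟩ | h1
      · left
        rw [show X q - (-T (X x) - -B (X q)) = X q - (B (X q) - T (X x)) by ring] at h1 h2
        constructor <;> linarith
      · right
        rw [show X x - (-T (X x) - -B (X q)) = X x - (B (X q) - T (X x)) by ring] at h1
        linarith
    · have yx : Y x = B (X x) := hL x h (hxq.le.trans q4.le)
      have hb : 0 ≤ X x := by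
        rcases h.eq_or_lt with h | h
        · rw [← h, X0]
        · have := m2 s0 x le_rfl h (hxq.le.trans q4.le)
          linarith
      rw [yx, yq]
      have := C.symm.c1a (a := X q) (b := X x) hb (m2 x q h hxq q4.le) (by linarith)
      rcases this with ⟨h1, h2⟩ | h1
      · left
        rw [show X q - (-B (X x) - -B (X q)) = X q - (B (X q) - B (X x)) by ring] at h1 h2
        constructor <;> linarith
      · right
        rw [show X x - (-B (X x) - -B (X q)) = X x - (B (X q) - B (X x)) by ring] at h1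
        linarith

/-- arrival on the lower branch, departure on the upper branch -/
theorem Cg.caseII (C : Cg T B r) (cX : Continuous X) (cY : Continuous Y) (hp : p < s0)
    (h02 : s0 < s2) (X0 : X s0 = 0) (Xp : 0 < X p) (X2 : X s2 = 2 * X p) (hr : X s2 ≤ r)
    (m1 : ∀ x y, p ≤ x → x < y → y ≤ s0 → X y < X x)
    (m2 : ∀ x y, s0 ≤ x → x < y → y ≤ s2 → X x < X y)
    (hL : ∀ x, p ≤ x → x ≤ s0 → Y x = B (X x)) (hU : ∀ x, s0 ≤ x → x ≤ s2 → Y x = T (X x)) :
    ∃ q, s0 < q ∧ q < s2 ∧
      (∀ y, p < y → y ≤ q → Y p + (X y - X p) < B (X p - (Y y - Y p))) ∧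
      (∀ x, p ≤ x → x < q → T (X q - (Y q - Y x)) < Y q + (X q - X x)) := by
  have cT := C.hT.cont
  have cB := C.hB.cont
  have yp : Y p = B (X p) := hL p le_rfl hp.le
  have y0 : Y s0 = T (X s0) := hU s0 le_rfl h02.le
  have ys : Y s2 = T (X s2) := hU s2 h02.le le_rfl
  obtain ⟨g1, g2⟩ := C.c2s Xp
  have ce : Continuous fun y => Y p + (X y - X p) - B (X p - (Y y - Y p)) := by fun_prop
  obtain ⟨z, hz, ez⟩ := intermediate_value_Icc h02.le ce.continuousOn
    (show (0:ℝ) ∈ Icc _ _ from ⟨by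
      rw [y0, yp, X0]; linarith, by
      rw [ys, yp, X2]; linarith⟩)
  simp only at ez
  have hz0 : s0 < z := by
    refine lt_of_le_of_ne hz.1 fun h => ?_
    rw [← h, y0, yp, X0] at ez
    linarith
  have yz : Y z = T (X z) := hU z hz.1 hz.2
  have k1 := C.c2z (b := X z) Xp (by linarith) (by
    rw [yz, yp] at ez
    linarith)
  rw [← yz, ← yp] at k1
  have e1 : ∀ᶠ q in 𝓝 z, T (X q - (Y q - Y p)) < Y q + (X q - X p) :=
    ContinuousAt.eventually_lt (by fun_prop) (by fun_prop) k1
  have e4 : ∀ᶠ q in 𝓝 z, s0 < q := eventually_gt_nhds hz0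
  have e5 := (e1.and e4).filter_mono (nhdsWithin_le_nhds (s := Iio z))
  obtain ⟨q, ⟨q1, q4⟩, q5⟩ := (e5.and self_mem_nhdsWithin).exists
  have q5 : q < z := q5
  have q2 : q < s2 := lt_of_lt_of_le q5 hz.2
  have yq : Y q = T (X q) := hU q q4.le q2.le
  have q6 : Y p + (X q - X p) < B (X p - (Y q - Y p)) := by
    have := C.c2m (a := X p) (m2 q z q4.le q5 hz.2)
    rw [← yz, ← yq, ← yp] at this
    linarith
  refine ⟨q, q4, q2, ?_, ?_⟩
  · intro y hy hyq
    rcases le_total y s0 with h | h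
    · have yy : Y y = B (X y) := hL y hy.le h
      rw [yy, yp]
      exact C.c2a (m1 p y le_rfl hy h)
    · have yy : Y y = T (X y) := hU y h (hyq.trans q2.le)
      rcases hyq.eq_or_lt with h' | h'
      · rw [h']; exact q6
      · have := C.c2m (a := X p) (m2 y q h h' q2.le)
        rw [← yy, ← yq, ← yp] at this
        linarith
  · intro x hx hxq
    rcases le_total x s0 with h | h
    · have yx : Y x = B (X x) := hL x hx h
      have hb : X x ≤ X p := by
        rcases hx.eq_or_lt with h' | h'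
        · rw [h']
        · exact (m1 p x le_rfl h' h).le
      rw [yx, yq]
      refine C.c2c hb ?_
      rw [← yq, ← yp]; exact q1
    · have yx : Y x = T (X x) := hU x h (hxq.le.trans q2.le)
      rw [yx, yq]
      exact C.c2d (m2 x q h hxq q2.le)

end Pool.Agent.H157.Cusp
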