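import Pool.Agent.H157.Cusp.Opening

/-! The squares on the chords of two Lipschitz graphs that meet in a cusp. The chord from `(a, p)` to
`(b, q)` has the left hand square with the further vertices `(a - (q - p), p + (b - a))` and
`(b - (q - p), q + (b - a))`. -/

set_option autoImplicit false
open Set

namespace Pool.Agent.H157.Cusp

open Pool.Agent.Y450.Stab Pool.Agent.Y450.Lens

/-- two graphs that meet in a cusp at the origin, without squares near the origin -/
structure Cg (T B : ℝ → ℝ) (r : ℝ) : Prop where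
  hT : Lip (1 / 5) T
  hB : Lip (1 / 5) B
  T0 : ∀ x ≤ 0, T x = 0
  B0 : ∀ x ≤ 0, B x = 0
  hTB : ∀ x, 0 < x → B x < T x
  n1 : ∀ x d l, 0 < x → x ≤ r → ESq T B x d l → T x + d - l ≠ B (x + d + l)
  n2 : ∀ x d l, 0 < x → x ≤ r → ESq (fun t => -B t) (fun t => -T t) x d l →
    -B x + d - l ≠ -T (x + d + l)

variable {T B : ℝ → ℝ} {r a b b1 : ℝ}

theorem Cg.le (C : Cg T B r) (x : ℝ) : B x ≤ T x := by
  rcases le_or_gt x 0 with h | h
  · rw [C.T0 x h, C.B0 x h]
  · exact (C.hTB x h).le

theorem Cg.symm (C : Cg T B r) : Cg (fun t => -B t) (fun t => -T t) r where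
  hT := lip_minus C.hB
  hB := lip_minus C.hT
  T0 x hx := by simp [C.B0 x hx]
  B0 x hx := by simp [C.T0 x hx]
  hTB x hx := by simpa using C.hTB x hx
  n1 := C.n2
  n2 := by
    intro x d l h1 h2 S
    have e1 : (fun t => -(fun t => -B t) t) = B := by funext t; simp
    have e2 : (fun t => -(fun t => -T t) t) = T := by funext t; simp
    rw [e1, e2] at S
    have := C.n1 x d l h1 h2 S
    simpa using this

/-- Lipschitz bounds without absolute values -/
theorem lip_ab {f : ℝ → ℝ} (h : Lip (1 / 5) f) {x y : ℝ} (hxy : x ≤ y) :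
    f x - f y ≤ 1 / 5 * (y - x) ∧ f y - f x ≤ 1 / 5 * (y - x) := by
  have := lip_lin h x y
  rwa [abs_of_nonpos (by linarith : x - y ≤ 0), neg_sub] at this

/-- the increase of the height -/
theorem up1 {f k : ℝ → ℝ} (hf : Lip (1 / 5) f) (hk : Lip (1 / 5) k) (u : ℝ) {s t : ℝ}
    (hst : s < t) : f (u - k t) - f (u - k s) < t - s ∧ f (u + k t) - f (u + k s) < t - s ∧
      f (u - k s) - f (u - k t) < t - s ∧ f (u + k s) - f (u + k t) < t - s := by
  have h1 := lip_lin hf (u - k t) (u - k s)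
  have h2 := lip_lin hf (u + k t) (u + k s)
  have h3 := lip_ab hk hst.le
  rw [show u - k t - (u - k s) = -(k t - k s) by ring, abs_neg] at h1
  rw [show u + k t - (u + k s) = k t - k s by ring] at h2
  have h4 : |k t - k s| ≤ 1 / 5 * (t - s) := abs_le.2 ⟨by linarith, by linarith⟩
  refine ⟨?_, ?_, ?_, ?_⟩ <;> linarith

/-- upper branch, upper branch -/
theorem Cg.c1a (C : Cg T B r) (hb : 0 ≤ b) (hba : b < a) (har : a ≤ r) :
    (B (a - (T b - T a)) < T a + (b - a) ∧ T a + (b - a) < T (a - (T b - T a))) ∨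
      T b + (b - a) < B (b - (T b - T a)) := by
  have k1 := lip_ab C.hT hba.le
  have k2 := lip_lin C.hT (a - (T b - T a)) a
  rw [show a - (T b - T a) - a = -(T b - T a) by ring, abs_neg] at k2
  have k3 : |T b - T a| ≤ 1 / 5 * (a - b) := abs_le.2 ⟨by linarith, by linarith⟩
  rcases hb.eq_or_lt with hb0 | hb0
  · right
    subst hb0
    have k4 := lip_lin C.hB (0 - (T 0 - T a)) 0
    rw [C.T0 0 le_rfl, C.B0 0 le_rfl] at *
    rw [show (0 - (0 - T a) - 0 : ℝ) = T a by ring] at k4
    rw [zero_sub, abs_neg] at k3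
    linarith
  · by_cases hE : T b + (b - a) < B (b - (T b - T a))
    · exact Or.inr hE
    left
    refine ⟨?_, by linarith⟩
    have := opening C.hT C.hB (C.T0 0 le_rfl) (C.B0 0 le_rfl) C.le C.hTB C.n1 hb0
      (by linarith : b ≤ r) (m := a - b) (by
        rw [show b + (a - b) = a by ring, show b + (T a - T b) = b - (T b - T a) by ring]
        linarith)
    rw [show b + (a - b) = a by ring, show a + (T a - T b) = a - (T b - T a) by ring] at this
    linarith

theorem Cg.gap (C : Cg T B r) (ha : 0 < a) : 0 < T a - B a ∧ T a ≤ 1 / 5 * a ∧ -(1 / 5 * a) ≤ T a ∧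
    B a ≤ 1 / 5 * a ∧ -(1 / 5 * a) ≤ B a := by
  have h1 := C.hTB a ha
  have h2 := lip_ab C.hT ha.le
  have h3 := lip_ab C.hB ha.le
  rw [C.T0 0 le_rfl] at h2
  rw [C.B0 0 le_rfl] at h3
  refine ⟨?_, ?_, ?_, ?_, ?_⟩ <;> linarith [h2.1, h2.2, h3.1, h3.2]

/-- upper branch, lower branch -/
theorem Cg.low (C : Cg T B r) (ha : 0 < a)
    (h : B (b - (B b - T a)) ≤ B b + (b - a)) : B (a - (B b - T a)) < T a + (b - a) := by
  obtain ⟨g0, -, -, -, -⟩ := C.gap ha
  have k1 := lip_lin C.hB (b - (B b - T a)) b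
  have k2 := lip_lin C.hB (a - (B b - T a)) a
  rw [show b - (B b - T a) - b = -(B b - T a) by ring, abs_neg] at k1
  rw [show a - (B b - T a) - a = -(B b - T a) by ring, abs_neg] at k2
  rcases le_total a b with hab | hab
  · have k3 := lip_ab C.hB hab
    rcases abs_cases (B b - T a) with ⟨h1, h2⟩ | ⟨h1, h2⟩ <;> rw [h1] at k1 k2 <;> linarith
  · have k3 := lip_ab C.hB hab
    rcases abs_cases (B b - T a) with ⟨h1, h2⟩ | ⟨h1, h2⟩ <;> rw [h1] at k1 k2 <;> linarith

theorem Cg.c1b (C : Cg T B r) (ha : 0 < a) (hb1 : b ≤ b1)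
    (h1 : T a + (b1 - a) < T (a - (B b1 - T a))) :
    (B (a - (B b - T a)) < T a + (b - a) ∧ T a + (b - a) < T (a - (B b - T a))) ∨
      B b + (b - a) < B (b - (B b - T a)) := by
  by_cases hE : B b + (b - a) < B (b - (B b - T a))
  · exact Or.inr hE
  left
  refine ⟨C.low ha (not_lt.1 hE), ?_⟩
  rcases hb1.eq_or_lt with h | h
  · rw [h]; exact h1
  · have := (up1 C.hT C.hB (a + T a) h).1
    rw [show a + T a - B b1 = a - (B b1 - T a) by ring,
      show a + T a - B b = a - (B b - T a) by ring] at this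
    linarith

/-- the corner -/
theorem Cg.c1z (C : Cg T B r) (ha : 0 < a) (hbr : b ≤ r)
    (h : B b + (b - a) = B (b - (B b - T a))) :
    B (a - (B b - T a)) < T a + (b - a) ∧ T a + (b - a) < T (a - (B b - T a)) ∧
      B b + (b - a) < T (b - (B b - T a)) := by
  obtain ⟨g0, g1, g2, g3, g4⟩ := C.gap ha
  have k1 := lip_lin C.hB (b - (B b - T a)) b
  rw [show b - (B b - T a) - b = -(B b - T a) by ring, abs_neg, ← h] at k1
  have hg : 0 < T a - B b ∧ 0 < b := by
    rcases le_total a b with hab | hab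
    · have k3 := lip_ab C.hB hab
      rcases abs_cases (B b - T a) with ⟨h1, h2⟩ | ⟨h1, h2⟩ <;> rw [h1] at k1 <;>
        constructor <;> linarith
    · have k3 := lip_ab C.hB hab
      rcases abs_cases (B b - T a) with ⟨h1, h2⟩ | ⟨h1, h2⟩ <;> rw [h1] at k1 <;>
        constructor <;> linarith
  have e1 : b + (T a - B b) = b - (B b - T a) := by ring
  refine ⟨C.low ha h.ge, ?_, ?_⟩
  · have := opening' C.hT C.hB (C.T0 0 le_rfl) (C.B0 0 le_rfl) C.le C.hTB C.n2 hg.2 hbr
      (m := T a - B b) (by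
        rw [e1, ← h, show b - (B b + (b - a) - B b) = a by ring]
        linarith)
    rw [e1, ← h, show b - (B b - T a) - (B b + (b - a) - B b) = a - (B b - T a) by ring] at this
    linarith
  · rw [h]
    exact C.hTB _ (by linarith [hg.1, hg.2])

theorem Cg.c1s (C : Cg T B r) (ha : 0 < a) : B 0 + (0 - a) < B (0 - (B 0 - T a)) ∧
    B (2 * a - (B (2 * a) - T a)) < B (2 * a) + (2 * a - a) := by
  obtain ⟨g0, g1, g2, g3, g4⟩ := C.gap ha
  obtain ⟨m0, m1, m2, m3, m4⟩ := C.gap (a := 2 * a) (by linarith)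
  rw [C.B0 0 le_rfl, show (0 - (0 - T a) : ℝ) = T a by ring]
  have k1 := lip_lin C.hB (T a) 0
  rw [C.B0 0 le_rfl] at k1
  simp only [sub_zero] at k1
  have k2 := lip_lin C.hB (2 * a - (B (2 * a) - T a)) (2 * a)
  rw [show 2 * a - (B (2 * a) - T a) - 2 * a = -(B (2 * a) - T a) by ring, abs_neg] at k2
  have k3 : |T a| ≤ 1 / 5 * a := abs_le.2 ⟨by linarith, by linarith⟩
  have k4 : |B (2 * a) - T a| ≤ 3 / 5 * a := abs_le.2 ⟨by linarith, by linarith⟩
  constructor <;> linarith

/-- the height of the last vertex increases -/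
theorem Cg.c1m (C : Cg T B r) {b b' : ℝ} (h : b < b') :
    B b + (b - a) - B (b - (B b - T a)) < B b' + (b' - a) - B (b' - (B b' - T a)) := by
  have k1 := lip_lin C.hB (b' - (B b' - T a)) (b - (B b - T a))
  have k2 := lip_ab C.hB h.le
  rw [show b' - (B b' - T a) - (b - (B b - T a)) = (b' - b) - (B b' - B b) by ring,
    abs_of_nonneg (by linarith)] at k1
  linarith

/-- lower branch, lower branch -/
theorem Cg.c2a (C : Cg T B r) (hba : b < a) : B a + (b - a) < B (a - (B b - B a)) := by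
  have k1 := lip_ab C.hB hba.le
  have k2 := lip_lin C.hB (a - (B b - B a)) a
  rw [show a - (B b - B a) - a = -(B b - B a) by ring, abs_neg] at k2
  have k3 : |B b - B a| ≤ 1 / 5 * (a - b) := abs_le.2 ⟨by linarith, by linarith⟩
  linarith

/-- lower branch, upper branch: the height increases -/
theorem Cg.c2m (C : Cg T B r) {b b' : ℝ} (h : b < b') :
    B a + (b - a) - B (a - (T b - B a)) < B a + (b' - a) - B (a - (T b' - B a)) := by
  have := (up1 C.hB C.hT (a + B a) h).1
  rw [show a + B a - T b' = a - (T b' - B a) by ring,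
    show a + B a - T b = a - (T b - B a) by ring] at this
  linarith

/-- the start of the chord moves to the cusp on the lower branch -/
theorem Cg.c2c (C : Cg T B r) {a' : ℝ} (h : a' ≤ a)
    (h1 : T (b - (T b - B a)) < T b + (b - a)) : T (b - (T b - B a')) < T b + (b - a') := by
  rcases h.eq_or_lt with h | h
  · rw [h]; exact h1
  · have := (up1 C.hT C.hB (b - T b) h).2.2.2
    rw [show b - T b + B a = b - (T b - B a) by ring,
      show b - T b + B a' = b - (T b - B a') by ring] at this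
    linarith

/-- upper branch, upper branch, opposite direction -/
theorem Cg.c2d (C : Cg T B r) (hab : a < b) : T (b - (T b - T a)) < T b + (b - a) := by
  have k1 := lip_ab C.hT hab.le
  have k2 := lip_lin C.hT (b - (T b - T a)) b
  rw [show b - (T b - T a) - b = -(T b - T a) by ring, abs_neg] at k2
  have k3 : |T b - T a| ≤ 1 / 5 * (b - a) := abs_le.2 ⟨by linarith, by linarith⟩
  linarith

theorem Cg.c2s (C : Cg T B r) (ha : 0 < a) : B a + (0 - a) < B (a - (T 0 - B a)) ∧
    B (a - (T (2 * a) - B a)) < B a + (2 * a - a) := by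
  obtain ⟨g0, g1, g2, g3, g4⟩ := C.gap ha
  obtain ⟨m0, m1, m2, m3, m4⟩ := C.gap (a := 2 * a) (by linarith)
  rw [C.T0 0 le_rfl]
  have k1 := lip_lin C.hB (a - (0 - B a)) a
  rw [show a - (0 - B a) - a = B a by ring] at k1
  have k2 := lip_lin C.hB (a - (T (2 * a) - B a)) a
  rw [show a - (T (2 * a) - B a) - a = -(T (2 * a) - B a) by ring, abs_neg] at k2
  have k3 : |B a| ≤ 1 / 5 * a := abs_le.2 ⟨by linarith, by linarith⟩
  have k4 : |T (2 * a) - B a| ≤ 3 / 5 * a := abs_le.2 ⟨by linarith, by linarith⟩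
  constructor <;> linarith

theorem Cg.c2z (C : Cg T B r) (ha : 0 < a) (har : a ≤ r)
    (h : B a + (b - a) = B (a - (T b - B a))) : T (b - (T b - B a)) < T b + (b - a) := by
  obtain ⟨g0, g1, g2, g3, g4⟩ := C.gap ha
  have k1 := lip_lin C.hB (a - (T b - B a)) a
  rw [show a - (T b - B a) - a = -(T b - B a) by ring, abs_neg, ← h] at k1
  have hg : 0 < T b - B a ∧ 0 < a - (T b - B a) := by
    rcases le_total a b with hab | hab
    · have k3 := lip_ab C.hT hab
      rcases abs_cases (T b - B a) with ⟨h1, h2⟩ | ⟨h1, h2⟩ <;> rw [h1] at k1 <;>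
        constructor <;> linarith
    · have k3 := lip_ab C.hT hab
      rcases abs_cases (T b - B a) with ⟨h1, h2⟩ | ⟨h1, h2⟩ <;> rw [h1] at k1 <;>
        constructor <;> linarith
  by_contra hcon
  push Not at hcon
  have e1 : a - (T b - B a) + (T b - B a) = a := by ring
  have := opening' C.hT C.hB (C.T0 0 le_rfl) (C.B0 0 le_rfl) C.le C.hTB C.n2 hg.2
    (by linarith) (m := T b - B a) (by
      rw [e1, ← h, show a - (T b - B a) - (B a - (B a + (b - a))) = b - (T b - B a) by ring]
      linarith)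
  rw [e1, ← h, show a - (B a - (B a + (b - a))) = b by ring] at this
  linarith

end Pool.Agent.H157.Cusp
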