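import Pool.Agent.H157.Cusp.Around
import Pool.Agent.Y535.PEG.Tg6

/-! Inscribed squares in curves with cusps. -/

set_option autoImplicit false
open Complex Set Topology Metric Filter

namespace Pool.Agent.H157.Cusp

open Pool.Agent.Y535.PEG
open Pool.Agent.H763R2 Pool.Agent.H763R2.An Pool.Agent.W675.Peg Pool.Agent.TH569.Peg
open Pool.Agent.H763R2.Dm (NoSq floor_const)

variable {c : ℝ → ℂ}

theorem mon_open (c : ℝ → ℂ) : IsOpen {t | Mon c t} := by
  rw [Metric.isOpen_iff]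
  intro t ht
  obtain ⟨ρ, hρ, h⟩ := Pool.Agent.H35.PegCol.Mon_near (c := c) ht
  exact ⟨ρ, hρ, fun r hr => h r hr⟩

theorem arc_cusp (L : Loop c) (J : Inj c) (nosq : NoSq (range c)) {z0 : ℂ} (hz : 0 < mgc c z0)
    {X : ℝ → ZMod 2} (x5 : ∀ s t, AR c s t → (∀ r ∈ Icc s t, Mon c r) → X t = X s)
    (x8 : ∀ s t, AR c s t → Pool.Agent.H35.PegCol.StairLR c s t → X t = X s)
    {s1 b : ℝ} (C1 : Cone c s1) (hb : s1 < b) (hb1 : b < s1 + 1) (Cb : Cone c b)
    (H : ∀ s ∈ Icc s1 b, Mon c s ∨ Cusp c s) : X b = X s1 := by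
  obtain ⟨S, hS⟩ : ∃ S : Set ℝ, ∀ τ, τ ∈ S ↔ (s1 ≤ τ ∧ τ ≤ b) ∧
      ∀ u, s1 ≤ u → u ≤ τ → Cone c u → X u = X s1 := ⟨{τ | _}, fun _ => Iff.rfl⟩
  have hpS : s1 ∈ S := (hS s1).2 ⟨⟨le_rfl, hb.le⟩, fun u h1 h2 _ => by rw [le_antisymm h2 h1]⟩
  have hbd : BddAbove S := ⟨b, fun τ hτ => ((hS τ).1 hτ).1.2⟩
  obtain ⟨e, he⟩ : ∃ e, e = sSup S := ⟨_, rfl⟩
  have pe : s1 ≤ e := by rw [he]; exact le_csSup hbd hpS
  have ep' : e ≤ b := by rw [he]; exact csSup_le ⟨s1, hpS⟩ fun τ hτ => ((hS τ).1 hτ).1.2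
  have left : ∀ u, s1 ≤ u → u < e → Cone c u → X u = X s1 := by
    intro u h1 h2 C
    rw [he] at h2
    obtain ⟨τ, hτ, h3⟩ := exists_lt_of_lt_csSup ⟨s1, hpS⟩ h2
    exact ((hS τ).1 hτ).2 u h1 h3.le C
  have main : ∃ δ > 0, ∀ u, u ≤ b → e ≤ u → u < e + δ → Cone c u → X u = X s1 := by
    by_cases hM : Mon c e
    · obtain ⟨ρ, hρ, hm⟩ := Pool.Agent.H35.PegCol.Mon_near hM
      refine ⟨ρ, hρ, fun u hu hue hu1 Cu => ?_⟩
      have near : ∀ r, e ≤ r → r ≤ u → Mon c r := fun r h1 h2 => hm r (by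
        rw [abs_of_nonneg (by linarith)]; linarith)
      by_cases hK : ∃ t, s1 ≤ t ∧ t ≤ e ∧ ¬ Mon c t
      · obtain ⟨K, hKd⟩ : ∃ K : Set ℝ, K = Icc s1 e ∩ {t | Mon c t}ᶜ := ⟨_, rfl⟩
        have cK : IsCompact K := by
          rw [hKd]; exact isCompact_Icc.inter_right (mon_open c).isClosed_compl
        have nK : K.Nonempty := by
          obtain ⟨t, h1, h2, h3⟩ := hK
          exact ⟨t, by rw [hKd]; exact ⟨⟨h1, h2⟩, h3⟩⟩
        obtain ⟨v, hv⟩ : ∃ v, v = sSup K := ⟨_, rfl⟩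
        have vK := cK.sSup_mem nK
        rw [← hv, hKd] at vK
        obtain ⟨⟨v1, v2⟩, v3⟩ := vK
        have v3 : ¬ Mon c v := v3
        have v4 : v < e := lt_of_le_of_ne v2 fun h => v3 (by rw [h]; exact hM)
        obtain ⟨ρv, hρv, hcv⟩ := ((H v ⟨v1, by linarith⟩).resolve_left v3).cone
        obtain ⟨q0, q1, q2⟩ := exists_between (lt_min (by linarith : v < v + ρv) v4)
        obtain ⟨q3, q4⟩ := lt_min_iff.1 q2
        have Cq := hcv q0 q1.ne' (by rw [abs_of_pos (by linarith)]; linarith)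
        have e1 := left q0 (by linarith) q4 Cq
        rw [← e1]
        refine x5 q0 u ⟨by linarith, by linarith, Cq, Cu⟩ fun r hr => ?_
        rcases le_total e r with h | h
        · exact near r h hr.2
        · by_contra hcon
          have : r ∈ K := by rw [hKd]; exact ⟨⟨by linarith [hr.1], h⟩, hcon⟩
          have := le_csSup cK.bddAbove this
          rw [← hv] at this
          linarith [hr.1]
      · push Not at hK
        have all : ∀ r, s1 ≤ r → r ≤ u → Mon c r := by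
          intro r h1 h2
          rcases le_total r e with h | h
          · exact hK r h1 h
          · exact near r h h2
        rcases (pe.trans hue).eq_or_lt with h | h
        · rw [h]
        · exact x5 s1 u ⟨h, by linarith, C1, Cu⟩ fun r hr => all r hr.1 hr.2
    · have Ce := (H e ⟨pe, ep'⟩).resolve_left hM
      have e1 : s1 < e := lt_of_le_of_ne pe fun h => hM (by rw [← h]; exact C1.mon)
      obtain ⟨ρc, hρc, hcone⟩ := Ce.cone
      refine ⟨ρc, hρc, fun u hu hue hu1 Cu => ?_⟩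
      have hlt : e < u := lt_of_le_of_ne hue fun h => hM (by rw [h]; exact Cu.mon)
      obtain ⟨p, q, p1, p2, q1, q2, A, hA⟩ := Ce.pair L J nosq hz
        (lt_min (sub_pos.2 hlt) (sub_pos.2 e1))
      have m1 := min_le_left (u - e) (e - s1)
      have m2 := min_le_right (u - e) (e - s1)
      have k1 := x8 p q A hA
      have k2 := left p (by linarith) p2 A.ha
      have k3 := x5 q u ⟨by linarith, by linarith, A.hb, Cu⟩ fun r hr => by
        refine (hcone r (by linarith [hr.1]) ?_).mon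
        rw [abs_of_pos (by linarith [hr.1])]
        linarith [hr.2]
      rw [k3, k1, k2]
  obtain ⟨δ, hδ, hm⟩ := main
  have all : ∀ u, s1 ≤ u → u ≤ b → u < e + δ → Cone c u → X u = X s1 := by
    intro u h1 h2 h3 C
    rcases lt_or_ge u e with h | h
    · exact left u h1 h C
    · exact hm u h2 h h3 C
  by_contra hcon
  have h1 : e + δ ≤ b := by
    by_contra h
    push Not at h
    exact hcon (all b hb.le le_rfl h Cb)
  have h2 : e + δ / 2 ∈ S := (hS _).2 ⟨⟨by linarith, by linarith⟩, fun u hu hu2 C =>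
    all u hu (by linarith) (by linarith) C⟩
  have h3 : e + δ / 2 ≤ e := by
    conv_rhs => rw [he]
    exact le_csSup hbd h2
  linarith

end Pool.Agent.H157.Cusp
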