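import Pool.Agent.H157.Cusp.Local

/-! The two kinds of cusps. -/

set_option autoImplicit false
open Complex Set Topology Metric Filter

namespace Pool.Agent.H157.Cusp

open Pool.Agent.Y450.Stab Pool.Agent.Y450.Lens
open Pool.Agent.Y535.PEG
open Pool.Agent.H763R2 Pool.Agent.H763R2.An Pool.Agent.W675.Peg Pool.Agent.TH569.Peg
open Pool.Agent.H763R2.Dm (NoSq floor_const)

variable {c : ℝ → ℂ} {T B X Y : ℝ → ℝ} {R s0 s2 p : ℝ} {o w : ℂ}

theorem sizes {r : ℝ} (C : Cg T B r) (hp : p < s0) (h02 : s0 < s2) (X0 : X s0 = 0)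
    (X2 : X s2 = 2 * X p) (hr : X s2 ≤ R / 4)
    (m1 : ∀ x y, p ≤ x → x < y → y ≤ s0 → X y < X x)
    (m2 : ∀ x y, s0 ≤ x → x < y → y ≤ s2 → X x < X y) {F G : ℝ → ℝ}
    (hF : F = T ∧ G = B ∨ F = B ∧ G = T)
    (h1 : ∀ x, p ≤ x → x ≤ s0 → Y x = F (X x)) (h2 : ∀ x, s0 ≤ x → x ≤ s2 → Y x = G (X x)) :
    ∀ x, p ≤ x → x ≤ s2 → 0 ≤ X x ∧ X x ≤ R / 4 ∧ -(R / 20) ≤ Y x ∧ Y x ≤ R / 20 := by
  have Xp : 0 < X p := by
    have := m1 p s0 le_rfl hp le_rfl
    linarith
  have hX : ∀ x, p ≤ x → x ≤ s2 → 0 ≤ X x ∧ X x ≤ R / 4 := by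
    intro x hx hx2
    rcases le_total x s0 with h | h
    · constructor
      · rcases h.eq_or_lt with h | h
        · rw [h, X0]
        · have := m1 x s0 hx h le_rfl
          linarith
      · rcases hx.eq_or_lt with h' | h'
        · rw [← h']; linarith
        · have := m1 p x le_rfl h' h
          linarith
    · constructor
      · rcases h.eq_or_lt with h | h
        · rw [← h, X0]
        · have := m2 s0 x le_rfl h hx2
          linarith
      · rcases hx2.eq_or_lt with h' | h'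
        · rw [h']; exact hr
        · have := m2 x s2 h h' le_rfl
          linarith
  have hf : ∀ f : ℝ → ℝ, f = T ∨ f = B → ∀ u, 0 ≤ u → -(1 / 5 * u) ≤ f u ∧ f u ≤ 1 / 5 * u := by
    intro f hf u hu
    rcases hf with rfl | rfl
    · have := lip_ab C.hT hu
      rw [C.T0 0 le_rfl] at this
      constructor <;> linarith
    · have := lip_ab C.hB hu
      rw [C.B0 0 le_rfl] at this
      constructor <;> linarith
  intro x hx hx2
  obtain ⟨k1, k2⟩ := hX x hx hx2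
  have : ∃ f, (f = T ∨ f = B) ∧ Y x = f (X x) := by
    rcases le_total x s0 with h | h
    · refine ⟨F, ?_, h1 x hx h⟩
      rcases hF with h | h
      · exact Or.inl h.1
      · exact Or.inr h.1
    · refine ⟨G, ?_, h2 x h hx2⟩
      rcases hF with h | h
      · exact Or.inr h.2
      · exact Or.inl h.2
  obtain ⟨f, hf', e⟩ := this
  have := hf f hf' (X x) k1
  rw [e]
  refine ⟨k1, k2, ?_, ?_⟩ <;> linarith [this.1, this.2]

theorem levI (L : Loop c) (J : Inj c) {z0 : ℂ} (hz : 0 < mgc c z0) (hw : w ≠ 0)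
    (C : Cg T B (R / 4)) (hX : ∀ s, X s = (w * (c s - o)).re) (hY : ∀ s, Y s = (w * (c s - o)).im)
    (hin : ∀ ζ : ℂ, |ζ.re| < R → |ζ.im| < R → o + ζ / w ∈ range c →
      0 ≤ ζ.re ∧ (ζ.im = T ζ.re ∨ ζ.im = B ζ.re))
    (hp : p < s0) (h02 : s0 < s2) (X0 : X s0 = 0) (X2 : X s2 = 2 * X p) (hr : X s2 ≤ R / 4)
    (m1 : ∀ x y, p ≤ x → x < y → y ≤ s0 → X y < X x)
    (m2 : ∀ x y, s0 ≤ x → x < y → y ≤ s2 → X x < X y)
    (hU : ∀ x, p ≤ x → x ≤ s0 → Y x = T (X x)) (hL : ∀ x, s0 ≤ x → x ≤ s2 → Y x = B (X x))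
    (C1 : ∀ s, p ≤ s → s < s0 → Cone c s) (C2 : ∀ s, s0 < s → s < s2 → Cone c s)
    (h1 : s2 < p + 1) :
    ∃ q, s0 < q ∧ q < s2 ∧ AR c p q ∧ Pool.Agent.H35.PegCol.StairLR c p q := by
  have cc := L.cont
  have cX : Continuous X := by
    rw [show X = fun s => (w * (c s - o)).re from funext hX]; fun_prop
  have cY : Continuous Y := by
    rw [show Y = fun s => (w * (c s - o)).im from funext hY]; fun_prop
  have cT := C.hT.cont
  have cB := C.hB.cont
  have Xp : 0 < X p := by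
    have := m1 p s0 le_rfl hp le_rfl
    linarith
  have R0 : 0 < R := by linarith
  have sz := sizes (R := R) C hp h02 X0 X2 hr m1 m2 (Or.inl ⟨rfl, rfl⟩) hU hL
  obtain ⟨q, q0, q2, i1, i2, i3, i4⟩ := C.caseI cX cY hp h02 X0 Xp X2 hr m1 m2 hU hL
  have Cp := C1 p le_rfl hp
  have Cq := C2 q q0 q2
  have A : AR c p q := ⟨hp.trans q0, by linarith, Cp, Cq⟩
  obtain ⟨g, hg, hside⟩ := cone_side L J hz
  have hD : ∀ s t, DD c s t = o + (((X s - (Y t - Y s) : ℝ) : ℂ) +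
      ((Y s + (X t - X s) : ℝ) : ℂ) * I) / w := fun s t => by
    rw [hX, hX, hY, hY]; exact DDz hw s t
  have hC : ∀ s t, CC c s t = o + (((X t - (Y t - Y s) : ℝ) : ℂ) +
      ((Y t + (X t - X s) : ℝ) : ℂ) * I) / w := fun s t => by
    rw [hX, hX, hY, hY]; exact CCz hw s t
  -- the regions do not meet the curve
  have nM : ∀ ζ ∈ RM T B R, o + ζ / w ∉ range c := by
    rintro ζ ⟨a1, a2, a3, a4⟩ hζ
    have a5 := lip_lin C.hT ζ.re 0
    have a6 := lip_lin C.hB ζ.re 0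
    rw [C.T0 0 le_rfl, sub_zero, sub_zero, abs_of_pos a1] at a5
    rw [C.B0 0 le_rfl, sub_zero, sub_zero, abs_of_pos a1] at a6
    obtain ⟨-, h | h⟩ := hin ζ (by rw [abs_of_pos a1]; exact a2)
      (abs_lt.2 ⟨by linarith, by linarith⟩) hζ
    · linarith
    · linarith
  have nU : ∀ ζ ∈ RU T R, o + ζ / w ∉ range c := by
    rintro ζ ⟨a1, a2, a3⟩ hζ
    have a5 := lip_lin C.hT ζ.re 0
    rw [C.T0 0 le_rfl, sub_zero, sub_zero] at a5
    have a6 := abs_nonneg ζ.re
    have := C.le ζ.re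
    obtain ⟨-, h | h⟩ := hin ζ a1 (abs_lt.2 ⟨by linarith, by linarith⟩) hζ
    · linarith
    · linarith
  have nL : ∀ ζ ∈ RL B R, o + ζ / w ∉ range c := by
    rintro ζ ⟨a1, a2, a3⟩ hζ
    have a5 := lip_lin C.hB ζ.re 0
    rw [C.B0 0 le_rfl, sub_zero, sub_zero] at a5
    have a6 := abs_nonneg ζ.re
    have := C.le ζ.re
    obtain ⟨-, h | h⟩ := hin ζ a1 (abs_lt.2 ⟨by linarith, by linarith⟩) hζ
    · linarith
    · linarith
  have pos_re : ∀ u v : ℝ, Md T B u v → 0 < u := by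
    intro u v h
    by_contra hcon
    push Not at hcon
    have := h.1.trans h.2
    rw [C.T0 u hcon, C.B0 u hcon] at this
    exact lt_irrefl _ this
  have reE : ∀ a b : ℝ, ((a : ℂ) + (b : ℂ) * I).re = a := fun a b => by simp
  have imE : ∀ a b : ℝ, ((a : ℂ) + (b : ℂ) * I).im = b := fun a b => by simp
  -- the region between the graphs
  have sM : ∀ u v : ℝ, Md T B u v → u < R → 0 < g * mgc c (o + ((u : ℂ) + (v : ℂ) * I) / w) := by
    obtain ⟨ρ, hρ, k1, -, -⟩ := side_pts (hside p Cp)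
    have e1 : ∀ᶠ t in 𝓝 p, B (X p - (Y t - Y p)) < Y p + (X t - X p) := by
      refine ContinuousAt.eventually_lt (by fun_prop) (by fun_prop) ?_
      rw [sub_self, sub_self, sub_zero, add_zero, hU p le_rfl hp.le]
      exact C.hTB _ Xp
    have e2 : ∀ᶠ t in 𝓝 p, t < s0 := eventually_lt_nhds hp
    have e3 : ∀ᶠ t in 𝓝 p, t < p + ρ := eventually_lt_nhds (by linarith)
    obtain ⟨t, ⟨t1, t2, t3⟩, t4⟩ := (((e1.and (e2.and e3)).filter_mono
      (nhdsWithin_le_nhds (s := Ioi p))).and self_mem_nhdsWithin).exists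
    have t4 : p < t := t4
    have t5 := k1 t t4 t3
    have t6 : Y p + (X t - X p) < T (X p - (Y t - Y p)) := by
      rw [hU p le_rfl hp.le, hU t t4.le t2.le]
      exact steep_dn C.hT (m1 p t le_rfl t4 t2.le)
    rw [hD] at t5
    have sp := sz p le_rfl (by linarith)
    have st := sz t t4.le (by linarith)
    have m0 : (((X p - (Y t - Y p) : ℝ) : ℂ) + ((Y p + (X t - X p) : ℝ) : ℂ) * I) ∈ RM T B R := by
      refine ⟨?_, ?_, ?_, ?_⟩ <;> rw [reE]
      · exact pos_re _ _ ⟨t1, t6⟩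
      · linarith
      · rw [imE]; exact t1
      · rw [imE]; exact t6
    intro u v huv hu
    have m3 : ((u : ℂ) + (v : ℂ) * I) ∈ RM T B R := by
      refine ⟨?_, ?_, ?_, ?_⟩ <;> rw [reE]
      · exact pos_re _ _ huv
      · exact hu
      · rw [imE]; exact huv.1
      · rw [imE]; exact huv.2
    exact (mul_pos_iff_of_pos_left t5).1 (reg_sign L hg (RM_pre C) nM m0 m3)
  -- the region above
  have sU : ∀ u v : ℝ, T u < v → |u| < R → v < R →
      g * mgc c (o + ((u : ℂ) + (v : ℂ) * I) / w) < 0 := by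
    obtain ⟨p1, p2, p3⟩ : ∃ p1, p < p1 ∧ p1 < s0 := exists_between hp
    obtain ⟨ρ, hρ, -, k1, -⟩ := side_pts (hside p1 (C1 p1 p2.le p3))
    obtain ⟨t, t1, t2⟩ : ∃ t, max p (p1 - ρ) < t ∧ t < p1 := exists_between (max_lt p2 (by linarith))
    have t3 := lt_of_le_of_lt (le_max_left _ _) t1
    have t4 := lt_of_le_of_lt (le_max_right _ _) t1
    have t5 := k1 t t4 t2
    have t6 : T (X p1 - (Y t - Y p1)) < Y p1 + (X t - X p1) := by
      rw [hU p1 p2.le p3.le, hU t t3.le (t2.trans p3).le]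
      exact steep_up C.hT (m1 t p1 t3.le t2 p3.le)
    rw [hD] at t5
    have sp := sz p1 p2.le (by linarith)
    have st := sz t t3.le (by linarith)
    have m0 : (((X p1 - (Y t - Y p1) : ℝ) : ℂ) + ((Y p1 + (X t - X p1) : ℝ) : ℂ) * I) ∈ RU T R := by
      refine ⟨?_, ?_, ?_⟩
      · rw [reE, abs_lt]; constructor <;> linarith
      · rw [reE, imE]; exact t6
      · rw [imE]; linarith
    intro u v h1 h2 h3
    have m3 : ((u : ℂ) + (v : ℂ) * I) ∈ RU T R := by
      refine ⟨?_, ?_, ?_⟩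
      · rw [reE]; exact h2
      · rw [reE, imE]; exact h1
      · rw [imE]; exact h3
    have := reg_sign L hg (RU_pre C.hT (C.T0 0 le_rfl)) nU m0 m3
    by_contra hcon
    push Not at hcon
    have := mul_nonpos_of_nonpos_of_nonneg t5.le hcon
    linarith
  -- the region below
  have sL : ∀ u v : ℝ, v < B u → |u| < R → -R < v →
      g * mgc c (o + ((u : ℂ) + (v : ℂ) * I) / w) < 0 := by
    obtain ⟨ρ, hρ, -, k1, -⟩ := side_pts (hside q Cq)
    obtain ⟨t, t1, t2⟩ : ∃ t, max s0 (q - ρ) < t ∧ t < q := exists_between (max_lt q0 (by linarith))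
    have t3 := lt_of_le_of_lt (le_max_left _ _) t1
    have t4 := lt_of_le_of_lt (le_max_right _ _) t1
    have t5 := k1 t t4 t2
    have t6 : Y q + (X t - X q) < B (X q - (Y t - Y q)) := by
      rw [hL q q0.le q2.le, hL t t3.le (t2.trans q2).le]
      exact steep_dn C.hB (m2 t q t3.le t2 q2.le)
    rw [hD] at t5
    have sp := sz q (by linarith) (by linarith)
    have st := sz t (by linarith) (by linarith)
    have m0 : (((X q - (Y t - Y q) : ℝ) : ℂ) + ((Y q + (X t - X q) : ℝ) : ℂ) * I) ∈ RL B R := by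
      refine ⟨?_, ?_, ?_⟩
      · rw [reE, abs_lt]; constructor <;> linarith
      · rw [reE, imE]; exact t6
      · rw [imE]; linarith
    intro u v h1 h2 h3
    have m3 : ((u : ℂ) + (v : ℂ) * I) ∈ RL B R := by
      refine ⟨?_, ?_, ?_⟩
      · rw [reE]; exact h2
      · rw [reE, imE]; exact h1
      · rw [imE]; exact h3
    have := reg_sign L hg (RL_pre C.hB (C.B0 0 le_rfl)) nL m0 m3
    by_contra hcon
    push Not at hcon
    have := mul_nonpos_of_nonpos_of_nonneg t5.le hcon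
    linarith
  have sp := sz p le_rfl (by linarith)
  have sq := sz q (by linarith) (by linarith)
  refine ⟨q, q0, q2, A, ?_⟩
  unfold Pool.Agent.H35.PegCol.StairLR Pool.Agent.H35.PegCol.Stair
  refine ⟨I, g, Or.inl rfl, hg, ?_, ?_, ?_, ?_, ?_⟩
  · obtain ⟨ρ, hρ, k1, -, -⟩ := side_pts (hside p Cp)
    exact ⟨ρ, hρ, fun y hy => by rw [← DD_eq]; exact k1 y hy.1 hy.2⟩
  · intro y hy
    have sy := sz y hy.1.le (by linarith [hy.2])
    rw [← DD_eq c p y, ← CC_eq c p y, hD, hC]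
    rcases i1 y hy.1 hy.2 with h | h
    · exact Or.inl (sM _ _ h (by linarith))
    · exact Or.inr (sL _ _ h (abs_lt.2 ⟨by linarith, by linarith⟩) (by linarith))
  · intro x hx
    have sx := sz x hx.1 (by linarith [hx.2])
    rw [← DD_eq c x q, ← CC_eq c x q, hD, hC]
    rcases i2 x hx.1 hx.2 with h | h
    · exact Or.inl (sM _ _ h (by linarith))
    · exact Or.inr (sU _ _ h (abs_lt.2 ⟨by linarith, by linarith⟩) (by linarith))
  · rw [← DD_eq, hD]; exact sM _ _ i3 (by linarith)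
  · rw [← CC_eq, hC]; exact sM _ _ i4 (by linarith)

theorem levII (L : Loop c) (J : Inj c) {z0 : ℂ} (hz : 0 < mgc c z0) (hw : w ≠ 0)
    (C : Cg T B (R / 4)) (hX : ∀ s, X s = (w * (c s - o)).re) (hY : ∀ s, Y s = (w * (c s - o)).im)
    (hin : ∀ ζ : ℂ, |ζ.re| < R → |ζ.im| < R → o + ζ / w ∈ range c →
      0 ≤ ζ.re ∧ (ζ.im = T ζ.re ∨ ζ.im = B ζ.re))
    (hp : p < s0) (h02 : s0 < s2) (X0 : X s0 = 0) (X2 : X s2 = 2 * X p) (hr : X s2 ≤ R / 4)
    (m1 : ∀ x y, p ≤ x → x < y → y ≤ s0 → X y < X x)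
    (m2 : ∀ x y, s0 ≤ x → x < y → y ≤ s2 → X x < X y)
    (hL : ∀ x, p ≤ x → x ≤ s0 → Y x = B (X x)) (hU : ∀ x, s0 ≤ x → x ≤ s2 → Y x = T (X x))
    (C1 : ∀ s, p ≤ s → s < s0 → Cone c s) (C2 : ∀ s, s0 < s → s < s2 → Cone c s)
    (h1 : s2 < p + 1) :
    ∃ q, s0 < q ∧ q < s2 ∧ AR c p q ∧ Pool.Agent.H35.PegCol.StairLR c p q := by
  have cc := L.cont
  have cX : Continuous X := by
    rw [show X = fun s => (w * (c s - o)).re from funext hX]; fun_prop
  have cY : Continuous Y := by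
    rw [show Y = fun s => (w * (c s - o)).im from funext hY]; fun_prop
  have cT := C.hT.cont
  have cB := C.hB.cont
  have Xp : 0 < X p := by
    have := m1 p s0 le_rfl hp le_rfl
    linarith
  have R0 : 0 < R := by linarith
  have sz := sizes (R := R) C hp h02 X0 X2 hr m1 m2 (Or.inr ⟨rfl, rfl⟩) hL hU
  obtain ⟨q, q0, q2, i1, i2⟩ := C.caseII cX cY hp h02 X0 Xp X2 hr m1 m2 hL hU
  have Cp := C1 p le_rfl hp
  have Cq := C2 q q0 q2
  have A : AR c p q := ⟨hp.trans q0, by linarith, Cp, Cq⟩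
  obtain ⟨g, hg, hside⟩ := cone_side L J hz
  have hD : ∀ s t, DD c s t = o + (((X s - (Y t - Y s) : ℝ) : ℂ) +
      ((Y s + (X t - X s) : ℝ) : ℂ) * I) / w := fun s t => by
    rw [hX, hX, hY, hY]; exact DDz hw s t
  have hC : ∀ s t, CC c s t = o + (((X t - (Y t - Y s) : ℝ) : ℂ) +
      ((Y t + (X t - X s) : ℝ) : ℂ) * I) / w := fun s t => by
    rw [hX, hX, hY, hY]; exact CCz hw s t
  have nU : ∀ ζ ∈ RU T R, o + ζ / w ∉ range c := by
    rintro ζ ⟨a1, a2, a3⟩ hζ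
    have a5 := lip_lin C.hT ζ.re 0
    rw [C.T0 0 le_rfl, sub_zero, sub_zero] at a5
    have a6 := abs_nonneg ζ.re
    have := C.le ζ.re
    obtain ⟨-, h | h⟩ := hin ζ a1 (abs_lt.2 ⟨by linarith, by linarith⟩) hζ
    · linarith
    · linarith
  have nL : ∀ ζ ∈ RL B R, o + ζ / w ∉ range c := by
    rintro ζ ⟨a1, a2, a3⟩ hζ
    have a5 := lip_lin C.hB ζ.re 0
    rw [C.B0 0 le_rfl, sub_zero, sub_zero] at a5
    have a6 := abs_nonneg ζ.re
    have := C.le ζ.re
    obtain ⟨-, h | h⟩ := hin ζ a1 (abs_lt.2 ⟨by linarith, by linarith⟩) hζ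
    · linarith
    · linarith
  have reE : ∀ a b : ℝ, ((a : ℂ) + (b : ℂ) * I).re = a := fun a b => by simp
  have imE : ∀ a b : ℝ, ((a : ℂ) + (b : ℂ) * I).im = b := fun a b => by simp
  -- the region above
  have sU : ∀ u v : ℝ, T u < v → |u| < R → v < R →
      0 < g * mgc c (o + ((u : ℂ) + (v : ℂ) * I) / w) := by
    obtain ⟨ρ, hρ, k1, -, -⟩ := side_pts (hside q Cq)
    obtain ⟨t, t2, t1⟩ : ∃ t, q < t ∧ t < min s2 (q + ρ) := exists_between (lt_min q2 (by linarith))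
    have t3 := lt_of_lt_of_le t1 (min_le_left _ _)
    have t4 := lt_of_lt_of_le t1 (min_le_right _ _)
    have t5 := k1 t t2 t4
    have t6 : T (X q - (Y t - Y q)) < Y q + (X t - X q) := by
      rw [hU q q0.le q2.le, hU t (q0.trans t2).le t3.le]
      exact steep_up C.hT (m2 q t q0.le t2 t3.le)
    rw [hD] at t5
    have sp := sz q (by linarith) (by linarith)
    have st := sz t (by linarith) (by linarith)
    have m0 : (((X q - (Y t - Y q) : ℝ) : ℂ) + ((Y q + (X t - X q) : ℝ) : ℂ) * I) ∈ RU T R := by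
      refine ⟨?_, ?_, ?_⟩
      · rw [reE, abs_lt]; constructor <;> linarith
      · rw [reE, imE]; exact t6
      · rw [imE]; linarith
    intro u v h1 h2 h3
    have m3 : ((u : ℂ) + (v : ℂ) * I) ∈ RU T R := by
      refine ⟨?_, ?_, ?_⟩
      · rw [reE]; exact h2
      · rw [reE, imE]; exact h1
      · rw [imE]; exact h3
    exact (mul_pos_iff_of_pos_left t5).1 (reg_sign L hg (RU_pre C.hT (C.T0 0 le_rfl)) nU m0 m3)
  -- the region below
  have sL : ∀ u v : ℝ, v < B u → |u| < R → -R < v →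
      0 < g * mgc c (o + ((u : ℂ) + (v : ℂ) * I) / w) := by
    obtain ⟨ρ, hρ, k1, -, -⟩ := side_pts (hside p Cp)
    obtain ⟨t, t2, t1⟩ : ∃ t, p < t ∧ t < min s0 (p + ρ) := exists_between (lt_min hp (by linarith))
    have t3 := lt_of_lt_of_le t1 (min_le_left _ _)
    have t4 := lt_of_lt_of_le t1 (min_le_right _ _)
    have t5 := k1 t t2 t4
    have t6 : Y p + (X t - X p) < B (X p - (Y t - Y p)) := by
      rw [hL p le_rfl hp.le, hL t t2.le t3.le]
      exact steep_dn C.hB (m1 p t le_rfl t2 t3.le)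
    rw [hD] at t5
    have sp := sz p le_rfl (by linarith)
    have st := sz t (by linarith) (by linarith)
    have m0 : (((X p - (Y t - Y p) : ℝ) : ℂ) + ((Y p + (X t - X p) : ℝ) : ℂ) * I) ∈ RL B R := by
      refine ⟨?_, ?_, ?_⟩
      · rw [reE, abs_lt]; constructor <;> linarith
      · rw [reE, imE]; exact t6
      · rw [imE]; linarith
    intro u v h1 h2 h3
    have m3 : ((u : ℂ) + (v : ℂ) * I) ∈ RL B R := by
      refine ⟨?_, ?_, ?_⟩
      · rw [reE]; exact h2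
      · rw [reE, imE]; exact h1
      · rw [imE]; exact h3
    exact (mul_pos_iff_of_pos_left t5).1 (reg_sign L hg (RL_pre C.hB (C.B0 0 le_rfl)) nL m0 m3)
  have sp := sz p le_rfl (by linarith)
  have sq := sz q (by linarith) (by linarith)
  refine ⟨q, q0, q2, A, ?_⟩
  unfold Pool.Agent.H35.PegCol.StairLR Pool.Agent.H35.PegCol.Stair
  have a1 : ∀ y ∈ Ioc p q, 0 < g * mgc c (DD c p y) := by
    intro y hy
    have sy := sz y hy.1.le (by linarith [hy.2])
    rw [hD]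
    exact sL _ _ (i1 y hy.1 hy.2) (abs_lt.2 ⟨by linarith, by linarith⟩) (by linarith)
  have a2 : ∀ x ∈ Ico p q, 0 < g * mgc c (CC c x q) := by
    intro x hx
    have sx := sz x hx.1 (by linarith [hx.2])
    rw [hC]
    exact sU _ _ (i2 x hx.1 hx.2) (abs_lt.2 ⟨by linarith, by linarith⟩) (by linarith)
  refine ⟨I, g, Or.inl rfl, hg, ?_, ?_, ?_, ?_, ?_⟩
  · exact ⟨q - p, by linarith, fun y hy => by rw [← DD_eq]; exact a1 y ⟨hy.1, by linarith [hy.2]⟩⟩
  · exact fun y hy => Or.inl (by rw [← DD_eq]; exact a1 y hy)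
  · exact fun x hx => Or.inl (by rw [← CC_eq]; exact a2 x hx)
  · rw [← DD_eq]; exact a1 q ⟨by linarith, le_rfl⟩
  · rw [← CC_eq]; exact a2 p ⟨le_rfl, by linarith⟩

end Pool.Agent.H157.Cusp
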