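import Pool.Agent.H157.Cusp.Make
import Pool.Agent.H35.PegUni

/-! The levels of a curve without inscribed squares agree before and after a cusp. -/

set_option autoImplicit false
open Complex Set Topology Metric

namespace Pool.Agent.H157.Cusp

open Pool.Agent.Y450.Stab Pool.Agent.Y450.Lens
open Pool.Agent.Y535.PEG
open Pool.Agent.H763R2 Pool.Agent.H763R2.An Pool.Agent.W675.Peg Pool.Agent.TH569.Peg
open Pool.Agent.H763R2.Dm (NoSq floor_const)

variable {c : ℝ → ℂ}

/-- both branches of the curve that issue from `c s` are graphs of Lipschitz functions with constant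
less than `1 / 5` over the same ray -/
def Cusp (c : ℝ → ℂ) (s : ℝ) : Prop := ∃ ρ > 0, ∃ w : ℂ,
  (∀ x y, s ≤ x → x < y → y < s + ρ → 5 * |(w * (c y - c x)).im| < (w * (c y - c x)).re) ∧
  (∀ x y, s - ρ < x → x < y → y ≤ s → 5 * |(w * (c x - c y)).im| < (w * (c x - c y)).re)

/-- points of the curve in the coordinates of the cusp -/
theorem DDz {c : ℝ → ℂ} {w o : ℂ} (hw : w ≠ 0) (s t : ℝ) : DD c s t = o +
    ((((w * (c s - o)).re - ((w * (c t - o)).im - (w * (c s - o)).im) : ℝ) : ℂ) +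
      (((w * (c s - o)).im + ((w * (c t - o)).re - (w * (c s - o)).re) : ℝ) : ℂ) * I) / w := by
  have e : ((((w * (c s - o)).re - ((w * (c t - o)).im - (w * (c s - o)).im) : ℝ) : ℂ) +
      (((w * (c s - o)).im + ((w * (c t - o)).re - (w * (c s - o)).re) : ℝ) : ℂ) * I) =
      w * (c s - o) + I * (w * (c t - o) - w * (c s - o)) := by
    apply Complex.ext <;> simp <;> ring
  rw [e, DD_eq]
  field_simp
  ring

theorem CCz {c : ℝ → ℂ} {w o : ℂ} (hw : w ≠ 0) (s t : ℝ) : CC c s t = o +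
    ((((w * (c t - o)).re - ((w * (c t - o)).im - (w * (c s - o)).im) : ℝ) : ℂ) +
      (((w * (c t - o)).im + ((w * (c t - o)).re - (w * (c s - o)).re) : ℝ) : ℂ) * I) / w := by
  have e : ((((w * (c t - o)).re - ((w * (c t - o)).im - (w * (c s - o)).im) : ℝ) : ℂ) +
      (((w * (c t - o)).im + ((w * (c t - o)).re - (w * (c s - o)).re) : ℝ) : ℂ) * I) =
      w * (c t - o) + I * (w * (c t - o) - w * (c s - o)) := by
    apply Complex.ext <;> simp <;> ring
  rw [e, CC_eq]
  field_simp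
  ring

/-- the signs on both sides of a cone point -/
theorem side_pts {g : ℝ} {s : ℝ} (h : ∃ ρ > 0, ∀ x y : ℝ, |x - s| < ρ → |y - s| < ρ → x < y →
      0 < g * mgc c (DD c x y) ∧ 0 < g * mgc c (CC c x y) ∧
      g * mgc c (DD c y x) < 0 ∧ g * mgc c (CC c y x) < 0) :
    ∃ ρ > 0, (∀ t, s < t → t < s + ρ → 0 < g * mgc c (DD c s t)) ∧
      (∀ t, s - ρ < t → t < s → g * mgc c (DD c s t) < 0) ∧
      (∀ t, s - ρ < t → t < s → 0 < g * mgc c (CC c t s)) := by
  obtain ⟨ρ, hρ, H⟩ := h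
  refine ⟨ρ, hρ, fun t h1 h2 => ?_, fun t h1 h2 => ?_, fun t h1 h2 => ?_⟩
  · exact (H s t (by simpa using hρ) (by rw [abs_of_pos (by linarith)]; linarith) h1).1
  · exact (H t s (by rw [abs_of_neg (by linarith)]; linarith) (by simpa using hρ) h2).2.2.1
  · exact (H t s (by rw [abs_of_neg (by linarith)]; linarith) (by simpa using hρ) h2).2.1

/-- the sign of the distance function on a region -/
theorem reg_sign (L : Loop c) {o w : ℂ} {g : ℝ} (hg : g = 1 ∨ g = -1) {V : Set ℂ}
    (hV : IsPreconnected V) (h : ∀ ζ ∈ V, o + ζ / w ∉ range c) {ζ ζ' : ℂ} (h1 : ζ ∈ V) (h2 : ζ' ∈ V) :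
    0 < (g * mgc c (o + ζ / w)) * (g * mgc c (o + ζ' / w)) := by
  have hM := (mgc_sg L).cont
  have nz : ∀ z, z ∉ range c → mgc c z ≠ 0 := fun z h hz => h ((mgc_sg L).zero L |>.1 hz)
  have := sign_pre hV (f := fun ζ => mgc c (o + ζ / w)) (Continuous.continuousOn (by fun_prop))
    (fun ζ hζ => nz _ (h ζ hζ)) h1 h2
  have g2 : g * g = 1 := by rcases hg with h | h <;> rw [h] <;> norm_num
  calc (0:ℝ) < mgc c (o + ζ / w) * mgc c (o + ζ' / w) := this
    _ = _ := by linear_combination (-(mgc c (o + ζ / w) * mgc c (o + ζ' / w))) * g2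

theorem steep_dn {f : ℝ → ℝ} (hf : Lip (1 / 5) f) {a b : ℝ} (h : b < a) :
    f a + (b - a) < f (a - (f b - f a)) := by
  have k1 := lip_ab hf h.le
  have k2 := lip_lin hf (a - (f b - f a)) a
  rw [show a - (f b - f a) - a = -(f b - f a) by ring, abs_neg] at k2
  have k3 : |f b - f a| ≤ 1 / 5 * (a - b) := abs_le.2 ⟨by linarith, by linarith⟩
  linarith

theorem steep_up {f : ℝ → ℝ} (hf : Lip (1 / 5) f) {a b : ℝ} (h : a < b) :
    f (a - (f b - f a)) < f a + (b - a) := by
  have k1 := lip_ab hf h.le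
  have k2 := lip_lin hf (a - (f b - f a)) a
  rw [show a - (f b - f a) - a = -(f b - f a) by ring, abs_neg] at k2
  have k3 : |f b - f a| ≤ 1 / 5 * (b - a) := abs_le.2 ⟨by linarith, by linarith⟩
  linarith

theorem RM_pre {T B : ℝ → ℝ} {r R : ℝ} (C : Cg T B r) : IsPreconnected (RM T B R) :=
  strip_pre C.hB.cont C.hT.cont fun x hx _ => C.hTB x hx

theorem RU_pre {f : ℝ → ℝ} {R : ℝ} (hf : Lip (1 / 5) f) (f0 : f 0 = 0) :
    IsPreconnected (RU f R) := by
  have h := strip_pre (f := f) (k := fun _ => R) hf.cont continuous_const (u := -R) (v := R)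
    fun x h1 h2 => by
      have := lip_lin hf x 0
      rw [f0, sub_zero, sub_zero] at this
      have h3 : |x| < R := abs_lt.2 ⟨h1, h2⟩
      have := abs_nonneg x
      linarith
  refine (congrArg IsPreconnected (Set.ext fun ζ => ?_)).mp h
  simp only [RU, mem_setOf_eq, abs_lt]
  tauto

theorem RL_pre {f : ℝ → ℝ} {R : ℝ} (hf : Lip (1 / 5) f) (f0 : f 0 = 0) :
    IsPreconnected (RL f R) := by
  have h := strip_pre (f := fun _ => -R) (k := f) continuous_const hf.cont (u := -R) (v := R)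
    fun x h1 h2 => by
      have := lip_lin hf x 0
      rw [f0, sub_zero, sub_zero] at this
      have h3 : |x| < R := abs_lt.2 ⟨h1, h2⟩
      have := abs_nonneg x
      linarith
  refine (congrArg IsPreconnected (Set.ext fun ζ => ?_)).mp h
  simp only [RL, mem_setOf_eq, abs_lt]
  tauto

end Pool.Agent.H157.Cusp
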