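import Pool.Agent.H157.Cusp.Branch

/-! Graphs whose points lie in a set without squares. -/

set_option autoImplicit false
open Set Filter Topology

namespace Pool.Agent.H157.Cusp

open Pool.Agent.Y450.Stab Pool.Agent.Y450.Lens Complex

theorem mkCg {T B : ℝ → ℝ} {R : ℝ} (hT : Lip (1 / 5) T) (hB : Lip (1 / 5) B)
    (T0 : ∀ x ≤ 0, T x = 0) (B0 : ∀ x ≤ 0, B x = 0) (hTB : ∀ x, 0 < x → B x < T x)
    {S : Set ℂ} {o w : ℂ} (hw : w ≠ 0)
    (nosq : ¬ ∃ z v : ℂ, v ≠ 0 ∧ z ∈ S ∧ z + v ∈ S ∧ z + v + I * v ∈ S ∧ z + I * v ∈ S)
    (onT : ∀ x, 0 ≤ x → x ≤ R → o + ((x : ℂ) + (T x : ℂ) * I) / w ∈ S)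
    (onB : ∀ x, 0 ≤ x → x ≤ R → o + ((x : ℂ) + (B x : ℂ) * I) / w ∈ S) : Cg T B (R / 4) := by
  have sz : ∀ x, 0 < x → T x - B x ≤ 2 / 5 * x := by
    intro x hx
    have h2 := lip_ab hT hx.le
    have h3 := lip_ab hB hx.le
    rw [T0 0 le_rfl] at h2
    rw [B0 0 le_rfl] at h3
    linarith [h2.1, h2.2, h3.1, h3.2]
  refine ⟨hT, hB, T0, B0, hTB, ?_, ?_⟩
  · intro x d l hx hxr E he
    have h1 := E.l_le hT hB (by norm_num)
    have h2 := abs_le.1 (E.d_le hT)
    have h3 := sz x hx
    have h4 := hTB x hx
    have l0 := E.l0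
    have lp : 0 < l := by
      have := gap_x hT hB (by norm_num) (by norm_num) E
      linarith
    have hl : l ≤ 1 / 2 * x := by
      have e : (1 - (1 / 5 : ℝ) ^ 2) * l = 24 / 25 * l := by ring
      rw [e] at h1
      linarith
    have v0 : ((l : ℂ) + (d : ℂ) * I) ≠ 0 := by
      intro h
      have := congrArg re h
      simp at this
      exact lp.ne' this
    refine nosq ⟨o + (((x + d : ℝ) : ℂ) + ((B (x + d) : ℝ) : ℂ) * I) / w, ((l : ℂ) + (d : ℂ) * I) / w,
      div_ne_zero v0 hw, onB _ (by linarith) (by linarith), ?_, ?_, ?_⟩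
    · have := onB (x + d + l) (by linarith) (by linarith)
      rw [← he] at this
      convert this using 1
      rw [E.h2]
      push_cast
      ring
    · have := onT (x + l) (by linarith) (by linarith)
      rw [E.h3] at this
      convert this using 1
      rw [E.h2]
      push_cast
      linear_combination ((d : ℂ) / w) * I_mul_I
    · have := onT x hx.le (by linarith)
      convert this using 1
      rw [E.h2]
      push_cast
      linear_combination ((d : ℂ) / w) * I_mul_I
  · intro x d l hx hxr E he
    have hT' := lip_minus hT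
    have hB' := lip_minus hB
    have h1 := E.l_le hB' hT' (by norm_num)
    have h2 := abs_le.1 (E.d_le hB')
    have h3 := sz x hx
    have h4 := hTB x hx
    have l0 := E.l0
    have lp : 0 < l := by
      have := gap_x hB' hT' (by norm_num) (by norm_num) E
      linarith
    have hl : l ≤ 1 / 2 * x := by
      have e : (1 - (1 / 5 : ℝ) ^ 2) * l = 24 / 25 * l := by ring
      rw [e] at h1
      linarith
    have v0 : ((l : ℂ) - (d : ℂ) * I) ≠ 0 := by
      intro h
      have := congrArg re h
      simp at this
      exact lp.ne' this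
    have e3 : B (x + l) = B x - d := by
      have := E.h3
      linarith
    have e2 : T (x + d) = B x + l := by
      have := E.h2
      linarith
    have e4 : T (x + d + l) = B x - d + l := by linarith
    refine nosq ⟨o + ((x : ℂ) + (B x : ℂ) * I) / w, ((l : ℂ) - (d : ℂ) * I) / w,
      div_ne_zero v0 hw, onB _ (by linarith) (by linarith), ?_, ?_, ?_⟩
    · have := onB (x + l) (by linarith) (by linarith)
      rw [e3] at this
      convert this using 1
      push_cast
      ring
    · have := onT (x + d + l) (by linarith) (by linarith)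
      rw [e4] at this
      convert this using 1
      push_cast
      linear_combination (-(d : ℂ) / w) * I_mul_I
    · have := onT (x + d) (by linarith) (by linarith)
      rw [e2] at this
      convert this using 1
      push_cast
      linear_combination (-(d : ℂ) / w) * I_mul_I

end Pool.Agent.H157.Cusp
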