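import Pool.Agent.Y450.Lens.Main

/-! Two Lipschitz graphs that meet in a cusp and contain no square: in the squares with three vertices
on the graphs the fourth vertex lies on a fixed side. -/

set_option autoImplicit false
open MeasureTheory intervalIntegral Set

namespace Pool.Agent.H157.Cusp

open Pool.Agent.Y450.Stab Pool.Agent.Y450.Lens

variable {T B : ℝ → ℝ}

theorem lip_minus {L : ℝ} {f : ℝ → ℝ} (h : Lip L f) : Lip L (fun x => -f x) := by
  intro x y
  have := h x y
  show |-f x - -f y| ≤ _
  rw [show -f x - -f y = -(f x - f y) by ring, abs_neg]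
  exact this

theorem lip_lin {f : ℝ → ℝ} (h : Lip (1 / 5) f) (x y : ℝ) :
    f x - f y ≤ 1 / 5 * |x - y| ∧ f y - f x ≤ 1 / 5 * |x - y| := by
  have := abs_le.1 (h x y)
  constructor <;> linarith [this.1, this.2]

theorem esq_uniq (hT : Lip (1 / 5) T) (hB : Lip (1 / 5) B) {x d l d' l' : ℝ} (S : ESq T B x d l)
    (S' : ESq T B x d' l') : d' = d ∧ l' = l := by
  have h := S.steps hT hB (by norm_num) (by norm_num) (r := 0) (by rw [add_zero]; exact S') le_rfl
  have h1 := abs_nonneg (d' - d)
  have h2 := abs_nonneg (l' - l)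
  have h3 : |d' - d| = 0 := by linarith
  have h4 : |l' - l| = 0 := by linarith
  rw [abs_eq_zero] at h3 h4
  constructor <;> linarith

theorem last_pos (hT : Lip (1 / 5) T) (hB : Lip (1 / 5) B) (hT0 : T 0 = 0) (hB0 : B 0 = 0)
    (hBT : ∀ x, B x ≤ T x) (hTB : ∀ x, 0 < x → B x < T x) {r : ℝ}
    (hns : ∀ x d l, 0 < x → x ≤ r → ESq T B x d l → T x + d - l ≠ B (x + d + l))
    {x d l : ℝ} (hx : 0 < x) (hxr : x ≤ r) (S : ESq T B x d l) : B (x + d + l) < T x + d - l := by
  have L0 : (0:ℝ) ≤ 1 / 5 := by norm_num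
  have L1 : (1 / 5 : ℝ) < 1 := by norm_num
  choose dd ll hS using fun x => ESq.ex hT hB L0 L1 (hBT x)
  obtain ⟨ed, el⟩ := esq_uniq hT hB S (hS x)
  have hst : ∀ x r, 0 ≤ r → |dd (x + r) - dd x| + |ll (x + r) - ll x| ≤ 5 * r := by
    intro x r hr
    have := (hS x).steps hT hB L0 L1 (hS (x + r)) hr
    linarith
  have cd : Continuous dd := cont_of_steps (K := 5) fun x r hr => by
    have := hst x r hr
    linarith [abs_nonneg (ll (x + r) - ll x)]
  have cl : Continuous ll := cont_of_steps (K := 5) fun x r hr => by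
    have := hst x r hr
    linarith [abs_nonneg (dd (x + r) - dd x)]
  have cT := hT.cont
  have cB := hB.cont
  have cv : Continuous fun x => T x + dd x - ll x - B (x + dd x + ll x) := by fun_prop
  have ne := hns x d l hx hxr S
  by_contra hcon
  have hlt : T x + d - l < B (x + d + l) := lt_of_le_of_ne (not_lt.1 hcon) ne
  have hneg : ∀ y, 0 < y → y ≤ x → T y + dd y - ll y - B (y + dd y + ll y) < 0 := by
    intro y hy hyx
    by_contra hc
    obtain ⟨z, hz, e⟩ := intermediate_value_Icc' hyx cv.continuousOn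
      (show (0:ℝ) ∈ Icc _ _ from ⟨by rw [ed, el]; linarith, not_lt.1 hc⟩)
    simp only at e
    exact hns z _ _ (lt_of_lt_of_le hy hz.1) (hz.2.trans hxr) (hS z) (by linarith)
  have l00 : ll 0 = 0 := by
    have := (hS 0).l_le hT hB L0
    rw [hT0, hB0] at this
    have := (hS 0).l0
    linarith
  have d00 : dd 0 = 0 := by
    have := (hS 0).d_le hT
    rw [l00, mul_zero] at this
    exact abs_nonpos_iff.1 this
  have hA := path_area (Bs := B) (L' := 1 / 5) hT hB L0 L1 hB L0 L1 (σ := -1) (Or.inr rfl) hx.le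
    (dd := dd) (ll := ll) (fun y _ => hS y) (fun y hy => by
      rcases hy.1.lt_or_eq with h | h
      · have := hneg y h hy.2
        simp only [YY, XX]
        linarith
      · rw [← h]
        simp [YY, XX, l00, d00, hT0, hB0])
  have hP0 : Pot T B 0 (dd 0) (ll 0) = 0 := by
    rw [d00, l00]; simp [Pot]
  have hv0 : YY T dd ll 0 - B (XX dd ll 0) = 0 := by
    simp [YY, XX, l00, d00, hT0, hB0]
  rw [hP0, hv0] at hA
  have hlow := S.pot_lower hT hB
  have hh := abs_le.1 (S.h_le hT hB)
  have hg := gap_x hT hB L0 L1 S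
  have := hTB x hx
  simp only [YY, XX, ed, el] at hA
  set v := T x + d - l - B (x + d + l) with hv
  have l0 := S.l0
  have lp : 0 < l := by linarith
  have vn : v < 0 := by linarith
  have e : (0 ^ 2 + v ^ 2) / (2 * (1 - 1 / 5)) = 5 / 8 * v ^ 2 := by ring
  rw [e] at hA
  have k1 : Pot T B x d l ≤ 5 / 8 * v ^ 2 := by linarith
  have k2 : 0 ≤ (2 / 5 * l + v) * (2 / 5 * l - v) := mul_nonneg (by linarith) (by linarith)
  have k3 : 0 ≤ l * (2 / 5 * l + v) := mul_nonneg l0 (by linarith)
  have k4 : 0 < l * l := mul_pos lp lp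
  nlinarith

/-- upper edge on the upper graph: if the lower left vertex is not below the lower graph, then the
lower right vertex is above it -/
theorem opening (hT : Lip (1 / 5) T) (hB : Lip (1 / 5) B) (hT0 : T 0 = 0) (hB0 : B 0 = 0)
    (hBT : ∀ x, B x ≤ T x) (hTB : ∀ x, 0 < x → B x < T x) {r : ℝ}
    (hns : ∀ x d l, 0 < x → x ≤ r → ESq T B x d l → T x + d - l ≠ B (x + d + l))
    {x m : ℝ} (hx : 0 < x) (hxr : x ≤ r)
    (h : B (x + (T (x + m) - T x)) ≤ T x - m) :
    B (x + m + (T (x + m) - T x)) < T (x + m) - m := by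
  obtain ⟨d, l, S⟩ := ESq.ex hT hB (by norm_num) (by norm_num) (hBT x)
  have hl := last_pos hT hB hT0 hB0 hBT hTB hns hx hxr S
  have e3 := S.h3
  have e2 := S.h2
  set β := T (x + m) - T x with hβ
  have k1 := lip_lin hT (x + l) (x + m)
  have k2 := lip_lin hB (x + m + β) (x + d + l)
  have k3 := lip_lin hB (x + d) (x + β)
  rw [show x + l - (x + m) = l - m by ring, e3] at k1
  rw [show x + m + β - (x + d + l) = (m - l) + (β - d) by ring] at k2
  rw [show x + d - (x + β) = d - β by ring, e2] at k3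
  rcases le_total m l with hml | hml
  · rw [abs_of_nonneg (by linarith : 0 ≤ l - m)] at k1
    have a1 := abs_add_le (m - l) (β - d)
    rw [abs_of_nonpos (by linarith : m - l ≤ 0)] at a1
    have a2 : |β - d| ≤ 1 / 5 * (l - m) := abs_le.2 ⟨by linarith, by linarith⟩
    linarith
  · rw [abs_of_nonpos (by linarith : l - m ≤ 0)] at k1
    have a2 : |d - β| ≤ 1 / 5 * (m - l) := abs_le.2 ⟨by linarith, by linarith⟩
    have : m = l := by linarith
    subst this
    have : β = d := by linarith
    rw [this] at *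
    rw [show x + m + d = x + d + m by ring]
    linarith

/-- lower edge on the lower graph: if the upper left vertex is not above the upper graph, then the
upper right vertex is below it -/
theorem opening' (hT : Lip (1 / 5) T) (hB : Lip (1 / 5) B) (hT0 : T 0 = 0) (hB0 : B 0 = 0)
    (hBT : ∀ x, B x ≤ T x) (hTB : ∀ x, 0 < x → B x < T x) {r : ℝ}
    (hns : ∀ x d l, 0 < x → x ≤ r → ESq (fun t => -B t) (fun t => -T t) x d l →
      -B x + d - l ≠ -T (x + d + l))
    {x m : ℝ} (hx : 0 < x) (hxr : x ≤ r)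
    (h : B x + m ≤ T (x - (B (x + m) - B x))) :
    B (x + m) + m < T (x + m - (B (x + m) - B x)) := by
  have k := opening (T := fun t => -B t) (B := fun t => -T t) (lip_minus hB) (lip_minus hT)
    (by simp [hB0]) (by simp [hT0]) (fun x => by simpa using hBT x)
    (fun x hx => by simpa using hTB x hx) hns hx hxr (by
      show -T (x + (-B (x + m) - -B x)) ≤ -B x - m
      rw [show x + (-B (x + m) - -B x) = x - (B (x + m) - B x) by ring]
      linarith)
  have k' : -T (x + m + (-B (x + m) - -B x)) < -B (x + m) - m := k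
  rw [show x + m + (-B (x + m) - -B x) = x + m - (B (x + m) - B x) by ring] at k'
  linarith

end Pool.Agent.H157.Cusp
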