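import Pool.Agent.H157.Cusp.Global

/-! Curves with one-sided tangents. -/

set_option autoImplicit false
open Complex Set Topology Metric Filter ComplexConjugate

namespace Pool.Agent.H157.Cusp

open Pool.Agent.Y535.PEG
open Pool.Agent.H763R2 Pool.Agent.H763R2.An Pool.Agent.W675.Peg Pool.Agent.TH569.Peg
open Pool.Agent.H763R2.Dm (NoSq floor_const)

/-- strict one-sided derivatives different from `0` -/
def Tan (c : ℝ → ℂ) (s : ℝ) : Prop := ∃ v v' : ℂ, v ≠ 0 ∧ v' ≠ 0 ∧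
  (∀ ε > 0, ∃ δ > 0, ∀ x y : ℝ, s ≤ x → x < y → y < s + δ →
    ‖c y - c x - ((y - x : ℝ) : ℂ) * v‖ ≤ ε * (y - x)) ∧
  (∀ ε > 0, ∃ δ > 0, ∀ x y : ℝ, s - δ < x → x < y → y ≤ s →
    ‖c y - c x - ((y - x : ℝ) : ℂ) * v'‖ ≤ ε * (y - x))

theorem dir_pos {w v : ℂ} {ε : ℝ} (hε : ε * ‖w‖ < (w * v).re) {z : ℂ} {t : ℝ}
    (ht : 0 < t) (hz : ‖z - (t : ℂ) * v‖ ≤ ε * t) : 0 < (w * z).re := by
  have e : w * z = (t : ℂ) * (w * v) + w * (z - t * v) := by ring
  have h1 : ‖w * (z - t * v)‖ ≤ ‖w‖ * (ε * t) := by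
    rw [norm_mul]; exact mul_le_mul_of_nonneg_left hz (norm_nonneg _)
  have h2 := (abs_le.1 ((abs_re_le_norm _).trans h1)).1
  rw [e, add_re, re_ofReal_mul]
  nlinarith [mul_pos ht (sub_pos.2 hε)]

theorem dir_cone {u v : ℂ} (hu : ‖u‖ = 1) {r : ℝ} (hr : 0 < r) (hv : v = (r : ℂ) * u) {z : ℂ} {t : ℝ}
    (ht : 0 < t) (hz : ‖z - (t : ℂ) * v‖ ≤ r / 8 * t) :
    5 * |(conj u * z).im| < (conj u * z).re := by
  have hc : conj u * u = 1 := by
    rw [← normSq_eq_conj_mul_self, normSq_eq_norm_sq, hu]; norm_num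
  have e : conj u * z = ((t * r : ℝ) : ℂ) + conj u * (z - t * v) := by
    rw [hv]
    push_cast
    linear_combination ((t : ℂ) * r) * hc
  have h1 : ‖conj u * (z - t * v)‖ ≤ r / 8 * t := by
    rw [norm_mul, Complex.norm_conj, hu, one_mul]; exact hz
  have h2 := (abs_le.1 ((abs_re_le_norm _).trans h1)).1
  have h3 := (abs_im_le_norm (conj u * (z - t * v))).trans h1
  rw [e, add_re, add_im, ofReal_re, ofReal_im, zero_add]
  nlinarith [mul_pos ht hr]

theorem Tan.cases {c : ℝ → ℂ} {s : ℝ} (h : Tan c s) : Mon c s ∨ Cusp c s := by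
  obtain ⟨v, v', hv, hv', H1, H2⟩ := h
  have r1 : 0 < ‖v‖ := norm_pos_iff.2 hv
  have r2 : 0 < ‖v'‖ := norm_pos_iff.2 hv'
  obtain ⟨u, hu⟩ : ∃ u : ℂ, u = v / ‖v‖ := ⟨_, rfl⟩
  obtain ⟨u', hu'⟩ : ∃ u' : ℂ, u' = v' / ‖v'‖ := ⟨_, rfl⟩
  have n1 : ‖u‖ = 1 := by rw [hu, norm_div, norm_real, norm_norm, div_self r1.ne']
  have n2 : ‖u'‖ = 1 := by rw [hu', norm_div, norm_real, norm_norm, div_self r2.ne']
  have e1 : v = (‖v‖ : ℂ) * u := by
    rw [hu, mul_div_cancel₀]
    exact_mod_cast r1.ne'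
  have e2 : v' = (‖v'‖ : ℂ) * u' := by
    rw [hu', mul_div_cancel₀]
    exact_mod_cast r2.ne'
  have s1 : u.re ^ 2 + u.im ^ 2 = 1 := by
    have := Complex.sq_norm u
    rw [n1, normSq_apply] at this
    nlinarith
  have s2 : u'.re ^ 2 + u'.im ^ 2 = 1 := by
    have := Complex.sq_norm u'
    rw [n2, normSq_apply] at this
    nlinarith
  by_cases hw : u + u' = 0
  · right
    obtain ⟨δ1, hδ1, K1⟩ := H1 (‖v‖ / 8) (by positivity)
    obtain ⟨δ2, hδ2, K2⟩ := H2 (‖v'‖ / 8) (by positivity)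
    refine ⟨min δ1 δ2, lt_min hδ1 hδ2, conj u, fun x y h1 h2 h3 => ?_, fun x y h1 h2 h3 => ?_⟩
    · have := min_le_left δ1 δ2
      exact dir_cone n1 r1 e1 (sub_pos.2 h2) (K1 x y h1 h2 (by linarith))
    · have := min_le_right δ1 δ2
      have e3 : -v' = (‖v'‖ : ℂ) * u := by
        have : u = -u' := by linear_combination hw
        rw [this, mul_neg, ← e2]
      refine dir_cone n1 r2 e3 (sub_pos.2 h2) ?_
      have := K2 x y (by linarith) h2 h3
      rw [show c x - c y - ((y - x : ℝ) : ℂ) * -v' = -(c y - c x - ((y - x : ℝ) : ℂ) * v') by ring,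
        norm_neg]
      exact this
  · left
    obtain ⟨w, hwd⟩ : ∃ w : ℂ, w = conj u + conj u' := ⟨_, rfl⟩
    have q : 0 < 1 + (u.re * u'.re + u.im * u'.im) := by
      have : 0 < normSq (u + u') := normSq_pos.2 hw
      rw [normSq_apply, add_re, add_im] at this
      nlinarith
    have p1 : (w * v).re = ‖v‖ * (1 + (u.re * u'.re + u.im * u'.im)) := by
      have : (w * u).re = 1 + (u.re * u'.re + u.im * u'.im) := by
        rw [hwd, mul_re, add_re, add_im, conj_re, conj_im, conj_re, conj_im]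
        linear_combination s1
      rw [e1, mul_left_comm, re_ofReal_mul, this]
      simp [n1]
    have p2 : (w * v').re = ‖v'‖ * (1 + (u.re * u'.re + u.im * u'.im)) := by
      have : (w * u').re = 1 + (u.re * u'.re + u.im * u'.im) := by
        rw [hwd, mul_re, add_re, add_im, conj_re, conj_im, conj_re, conj_im]
        linear_combination s2
      rw [e2, mul_left_comm, re_ofReal_mul, this]
      simp [n2]
    have p1' : 0 < (w * v).re := by rw [p1]; exact mul_pos r1 q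
    have p2' : 0 < (w * v').re := by rw [p2]; exact mul_pos r2 q
    obtain ⟨ε, hε, hε1, hε2⟩ : ∃ ε > 0, ε * ‖w‖ < (w * v).re ∧ ε * ‖w‖ < (w * v').re := by
      have nw := norm_nonneg w
      refine ⟨min (w * v).re (w * v').re / (‖w‖ + 1), by positivity, ?_, ?_⟩
      · rw [div_mul_eq_mul_div, div_lt_iff₀ (by linarith)]
        have := min_le_left (w * v).re (w * v').re
        nlinarith [mul_le_mul_of_nonneg_right this nw]
      · rw [div_mul_eq_mul_div, div_lt_iff₀ (by linarith)]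
        have := min_le_right (w * v).re (w * v').re
        nlinarith [mul_le_mul_of_nonneg_right this nw]
    obtain ⟨δ1, hδ1, K1⟩ := H1 ε hε
    obtain ⟨δ2, hδ2, K2⟩ := H2 ε hε
    have R1 : ∀ x y, s ≤ x → x < y → y < s + δ1 → 0 < (w * (c y - c x)).re := fun x y h1 h2 h3 =>
      dir_pos hε1 (sub_pos.2 h2) (K1 x y h1 h2 h3)
    have R2 : ∀ x y, s - δ2 < x → x < y → y ≤ s → 0 < (w * (c y - c x)).re := fun x y h1 h2 h3 =>
      dir_pos hε2 (sub_pos.2 h2) (K2 x y h1 h2 h3)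
    refine ⟨min δ1 δ2, lt_min hδ1 hδ2, w, fun x y hx hy hxy => ?_⟩
    rw [lt_min_iff, abs_lt, abs_lt] at hx hy
    rcases le_total s x with h | h
    · exact R1 x y h hxy (by linarith [hy.1.2])
    rcases le_total y s with h' | h'
    · exact R2 x y (by linarith [hx.2.1]) hxy h'
    rcases h.eq_or_lt with h | h
    · exact R1 x y h.ge hxy (by linarith [hy.1.2])
    rcases h'.eq_or_lt with h' | h'
    · exact R2 x y (by linarith [hx.2.1]) hxy h'.ge
    have a1 := R1 s y le_rfl h' (by linarith [hy.1.2])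
    have a2 := R2 x s (by linarith [hx.2.1]) h le_rfl
    rw [show w * (c y - c x) = w * (c y - c s) + w * (c s - c x) by ring, add_re]
    linarith

end Pool.Agent.H157.Cusp
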